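import Pool.Agent.BarCx.Defs

open scoped TensorProduct

set_option linter.unusedSectionVars false

namespace Pool.Agent.BarCx

universe u

variable {A : Type u} [NonUnitalRing A] [Module ℂ A] [IsScalarTower ℂ A A] [SMulCommClass ℂ A A]

/-- The elementary tensor `a ⊗ x`. -/
noncomputable def tm (n : ℕ) (a : A) (x : TP A n) : TP A (n + 1) :=
  (a ⊗ₜ[ℂ] x : A ⊗[ℂ] TP A n)

theorem tm_add (n : ℕ) (a : A) (x y : TP A n) : tm n a (x + y) = tm n a x + tm n a y :=
  TensorProduct.tmul_add _ _ _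

theorem tm_sub (n : ℕ) (a : A) (x y : TP A n) : tm n a (x - y) = tm n a x - tm n a y :=
  TensorProduct.tmul_sub _ _ _

theorem tm_zero (n : ℕ) (a : A) : tm n a (0 : TP A n) = 0 :=
  TensorProduct.tmul_zero _ _

theorem tm_smul (n : ℕ) (c : ℂ) (a : A) (x : TP A n) : tm n (c • a) x = c • tm n a x :=
  TensorProduct.smul_tmul' _ _ _

theorem act_tm (n : ℕ) (a b : A) (x : TP A n) :
    act A (n + 1) a (tm n b x) = tm n (a * b) x := rfl

theorem bar_tm_zero (a : A) (x : TP A 0) : bar A 0 (tm 0 a x) = act A 0 a x := rfl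

theorem bar_tm_succ (n : ℕ) (a : A) (x : TP A (n + 1)) :
    bar A (n + 1) (tm (n + 1) a x) = act A (n + 1) a x - tm n a (bar A n x) := rfl

theorem tp_ext {n : ℕ} {V : Type*} [AddCommGroup V] [Module ℂ V] {f g : TP A (n + 1) →ₗ[ℂ] V}
    (h : ∀ a x, f (tm n a x) = g (tm n a x)) : f = g :=
  TensorProduct.ext' (M := A) (N := TP A n) h

/-- Extension of a linear map of `A` to the first tensor factor. -/
noncomputable def lext (l : A →ₗ[ℂ] A) : (n : ℕ) → TP A n →ₗ[ℂ] TP A n
  | 0 => l
  | n + 1 => LinearMap.rTensor (TP A n) l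

theorem lext_tm (l : A →ₗ[ℂ] A) (n : ℕ) (a : A) (x : TP A n) :
    lext l (n + 1) (tm n a x) = tm n (l a) x := rfl

theorem act_eq_lext (n : ℕ) (a : A) : act A n a = lext (LinearMap.mulLeft ℂ a) n := by
  cases n <;> rfl

theorem act_lext (l : A →ₗ[ℂ] A) (hl : ∀ a b, l (a * b) = l a * b) (n : ℕ) (a : A)
    (x : TP A n) : act A n (l a) x = lext l n (act A n a x) := by
  cases n with
  | zero => exact (hl a x).symm
  | succ n =>
    have : act A (n + 1) (l a) = lext l (n + 1) ∘ₗ act A (n + 1) a := by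
      refine tp_ext fun b y => ?_
      simp only [LinearMap.comp_apply, act_tm, lext_tm, hl]
    exact congrArg (fun f => f x) this

theorem bar_lext (l : A →ₗ[ℂ] A) (hl : ∀ a b, l (a * b) = l a * b) (n : ℕ)
    (x : TP A (n + 1)) : bar A n (lext l (n + 1) x) = lext l n (bar A n x) := by
  have : bar A n ∘ₗ lext l (n + 1) = lext l n ∘ₗ bar A n := by
    refine tp_ext fun a y => ?_
    simp only [LinearMap.comp_apply, lext_tm]
    cases n with
    | zero => simp only [bar_tm_zero]; exact act_lext l hl 0 a y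
    | succ n =>
      simp only [bar_tm_succ, map_sub, lext_tm]
      rw [act_lext l hl (n + 1) a y]
  exact congrArg (fun f => f x) this

theorem bar_act (n : ℕ) (a : A) (x : TP A (n + 1)) :
    bar A n (act A (n + 1) a x) = act A n a (bar A n x) := by
  rw [act_eq_lext, act_eq_lext]
  exact bar_lext _ (fun b c => by simp [mul_assoc]) n x

theorem bar_comp_bar (n : ℕ) : bar A n ∘ₗ bar A (n + 1) = 0 := by
  induction n with
  | zero =>
    refine tp_ext fun a y => ?_
    simp only [LinearMap.comp_apply, bar_tm_succ, map_sub, bar_act, bar_tm_zero,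
      LinearMap.zero_apply, sub_self]
  | succ n ih =>
    refine tp_ext fun a y => ?_
    have h2 : bar A n (bar A (n + 1) y) = 0 := congrArg (fun f => f y) ih
    simp only [LinearMap.comp_apply, bar_tm_succ, map_sub, bar_act, h2, tm_zero,
      LinearMap.zero_apply, sub_self, sub_zero]

theorem bar_bar (n : ℕ) (x : TP A (n + 2)) : bar A n (bar A (n + 1) x) = 0 :=
  congrArg (fun f => f x) (bar_comp_bar (A := A) n)

/-- Being a cycle of the bar complex. -/
def Cyc : (n : ℕ) → TP A n → Prop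
  | 0, _ => True
  | n + 1, x => bar A n x = 0

theorem Cyc.bar_tm {n : ℕ} {x : TP A n} (hx : Cyc n x) (a : A) :
    bar A n (tm n a x) = act A n a x := by
  cases n with
  | zero => rfl
  | succ n =>
    have : bar A n x = 0 := hx
    rw [bar_tm_succ, this, tm_zero, sub_zero]

theorem Cyc.lext {n : ℕ} {x : TP A n} (hx : Cyc n x) (l : A →ₗ[ℂ] A)
    (hl : ∀ a b, l (a * b) = l a * b) : Cyc n (lext l n x) := by
  cases n with
  | zero => trivial
  | succ n =>
    have h : bar A n x = 0 := hx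
    show bar A n _ = 0
    rw [bar_lext l hl, h, map_zero]

theorem Cyc.act {n : ℕ} {x : TP A n} (hx : Cyc n x) (a : A) : Cyc n (act A n a x) := by
  rw [act_eq_lext]
  exact hx.lext _ (fun b c => by simp [mul_assoc])

theorem cyc_bar (n : ℕ) (x : TP A (n + 1)) : Cyc n (bar A n x) := by
  cases n with
  | zero => trivial
  | succ n => exact bar_bar n x

/-- A multiplier: a compatible pair of a left and a right multiplication. -/
structure Mult (A : Type u) [NonUnitalRing A] [Module ℂ A] where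
  l : A →ₗ[ℂ] A
  r : A →ₗ[ℂ] A
  hl : ∀ a b, l (a * b) = l a * b
  hr : ∀ a b, r (a * b) = a * r b
  hlr : ∀ a b, r a * b = a * l b

theorem move_elt {n : ℕ} {z : TP A n} (hz : Cyc n z) (S J : A) :
    bar A (n + 1) (tm (n + 1) S (tm n J z)) = tm n (S * J) z - tm n S (act A n J z) := by
  rw [bar_tm_succ, act_tm, hz.bar_tm]

theorem act_mult (L : Mult A) (n : ℕ) (a : A) (x : TP A n) :
    act A n (L.r a) x = act A n a (lext L.l n x) := by
  cases n with
  | zero => exact L.hlr a x
  | succ n =>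
    have : act A (n + 1) (L.r a) = act A (n + 1) a ∘ₗ lext L.l (n + 1) := by
      refine tp_ext fun b y => ?_
      simp only [LinearMap.comp_apply, act_tm, lext_tm, L.hlr]
    exact congrArg (fun f => f x) this

theorem move_mult {n : ℕ} {z : TP A n} (hz : Cyc n z) (L : Mult A) (S₁ S₂ : A) :
    bar A (n + 1) (tm (n + 1) S₁ (tm n (L.r S₂) z) - tm (n + 1) S₁ (tm n S₂ (lext L.l n z))) =
      tm n (L.r (S₁ * S₂)) z - tm n (S₁ * S₂) (lext L.l n z) := by
  rw [map_sub, move_elt hz, move_elt (hz.lext L.l L.hl), L.hr, act_mult]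
  abel

section Rep

variable {V : Type u} [AddCommGroup V] [Module ℂ V]

theorem exists_rep (y : A ⊗[ℂ] V) :
    ∃ (m : ℕ) (a : Fin m → A) (v : Fin m → V), y = ∑ i, a i ⊗ₜ[ℂ] v i ∧
      ∀ g : A →ₗ[ℂ] A, LinearMap.rTensor V g y = 0 → ∀ i, g (a i) = 0 := by
  classical
  let b := Module.Basis.ofVectorSpace ℂ V
  let e := TensorProduct.equivFinsuppOfBasisRight (M := A) b
  let f := e y
  let σ := f.support.equivFin
  refine ⟨f.support.card, fun i => f (σ.symm i), fun i => b (σ.symm i), ?_, ?_⟩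
  · have h1 : y = e.symm f := (e.symm_apply_apply y).symm
    rw [h1, TensorProduct.equivFinsuppOfBasisRight_symm_apply, Finsupp.sum,
      ← Finset.sum_coe_sort, ← σ.symm.sum_comp]
  · intro g hg i
    have key : ∀ z : A ⊗[ℂ] V, ∀ j, e (LinearMap.rTensor V g z) j = g (e z j) := by
      intro z j
      induction z using TensorProduct.induction_on with
      | zero => simp
      | tmul a v =>
        simp [e, TensorProduct.equivFinsuppOfBasisRight_apply_tmul]
      | add x y hx hy => simp only [map_add, Finsupp.add_apply, hx, hy]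
    rw [← key, hg]
    simp

/-- contraction of the second factor with a functional -/
noncomputable def contr (f : V →ₗ[ℂ] ℂ) : A ⊗[ℂ] V →ₗ[ℂ] A :=
  TensorProduct.lift ((LinearMap.lsmul ℂ A).flip.compl₂ f)

theorem contr_tmul (f : V →ₗ[ℂ] ℂ) (a : A) (v : V) : contr f (a ⊗ₜ[ℂ] v) = f v • a := rfl

theorem eq_zero_of_contr (y : A ⊗[ℂ] V) (h : ∀ f : V →ₗ[ℂ] ℂ, contr f y = 0) : y = 0 := by
  classical
  let b := Module.Basis.ofVectorSpace ℂ V
  let e := TensorProduct.equivFinsuppOfBasisRight (M := A) b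
  have key : ∀ z : A ⊗[ℂ] V, ∀ j, e z j = contr (b.coord j) z := by
    intro z j
    induction z using TensorProduct.induction_on with
    | zero => simp
    | tmul a v =>
      simp [e, TensorProduct.equivFinsuppOfBasisRight_apply_tmul, contr_tmul]
    | add x y hx hy => simp only [map_add, Finsupp.add_apply, hx, hy]
  have : e y = 0 := by
    ext j
    rw [key, h]; rfl
  exact (LinearEquiv.map_eq_zero_iff e).1 this

end Rep

/-- `t` satisfies all linear relations on the right satisfied by `z`. -/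
def Rel {m : ℕ} (z t : Fin m → A) : Prop :=
  ∀ (k : Fin m → A) (κ : Fin m → ℂ), ∑ i, (z i * k i + κ i • z i) = 0 →
    ∑ i, (t i * k i + κ i • t i) = 0

/-- contraction on the tensor powers -/
noncomputable def tcontr {n : ℕ} (f : TP A n →ₗ[ℂ] ℂ) : TP A (n + 1) →ₗ[ℂ] A :=
  contr (A := A) (V := TP A n) f

theorem tcontr_tm {n : ℕ} (f : TP A n →ₗ[ℂ] ℂ) (a : A) (x : TP A n) :
    tcontr f (tm n a x) = f x • a := rfl

theorem eq_zero_of_tcontr {n : ℕ} (y : TP A (n + 1))
    (h : ∀ f : TP A n →ₗ[ℂ] ℂ, tcontr f y = 0) : y = 0 :=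
  eq_zero_of_contr (A := A) (V := TP A n) y h

theorem tcontr_act {n : ℕ} (f : TP A n →ₗ[ℂ] ℂ) (s : A) (w : TP A (n + 1)) :
    tcontr f (act A (n + 1) s w) = s * tcontr f w := by
  have h2 : tcontr f ∘ₗ act A (n + 1) s = LinearMap.mulLeft ℂ s ∘ₗ tcontr f := by
    refine tp_ext fun a x => ?_
    simp only [LinearMap.comp_apply, act_tm, tcontr_tm, LinearMap.mulLeft_apply]
    rw [mul_smul_comm]
  exact congrArg (fun g => g w) h2

theorem tcontr_bar {m n : ℕ} (s : Fin m → A) (v : Fin m → TP A (n + 1))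
    (f : TP A n →ₗ[ℂ] ℂ) :
    tcontr f (bar A (n + 1) (∑ i, tm (n + 1) (s i) (v i))) =
      ∑ i, (s i * tcontr f (v i) + (-(f (bar A n (v i)))) • s i) := by
  rw [map_sum, map_sum]
  refine Finset.sum_congr rfl fun i _ => ?_
  rw [bar_tm_succ, map_sub, neg_smul, ← sub_eq_add_neg, tcontr_act, tcontr_tm]

theorem Rel.bar {m n : ℕ} {z t : Fin m → A} (h : Rel z t) (v : Fin m → TP A n)
    (hz : bar A n (∑ i, tm n (z i) (v i)) = 0) : bar A n (∑ i, tm n (t i) (v i)) = 0 := by
  cases n with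
  | zero =>
    let v' : Fin m → A := v
    have key : ∀ s : Fin m → A, BarCx.bar A 0 (∑ i, tm 0 (s i) (v i)) =
        (∑ i, (s i * v' i + (0 : ℂ) • s i) : A) := by
      intro s
      rw [map_sum]
      refine Finset.sum_congr rfl fun i _ => ?_
      rw [zero_smul, add_zero]
      rfl
    rw [key] at hz ⊢
    exact h v' (fun _ => 0) hz
  | succ n =>
    refine eq_zero_of_tcontr _ fun f => ?_
    rw [tcontr_bar]
    refine h _ _ ?_
    rw [← tcontr_bar z v f, hz, map_zero]

/-- A criterion for H-unitality. -/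
theorem hunital_of
    (P1 : ∀ (m : ℕ) (a : Fin m → A), ∃ (c : A) (a' : Fin m → A), ∀ i, a i = c * a' i)
    (P2 : ∀ (m : ℕ) (c : A) (z : Fin m → A), (∀ i, c * z i = 0) →
      ∃ (S J : A) (L : Mult A) (t : Fin m → A), c = S * J ∧ (∀ i, J * z i = t i - L.l (t i)) ∧
        L.r S = S ∧ Rel z t) : HUnital A := by
  have P1' : ∀ a : A, ∃ c b : A, a = c * b := by
    intro a
    obtain ⟨c, a', h⟩ := P1 1 (fun _ => a)
    exact ⟨c, a' 0, h 0⟩
  have core : ∀ (n : ℕ) (c : A) (z : TP A n), Cyc n z → act A n c z = 0 →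
      ∃ (S J : A) (L : Mult A) (t : TP A n), Cyc n t ∧ c = S * J ∧
        act A n J z = t - lext L.l n t ∧ L.r S = S := by
    intro n c z hz hcz
    cases n with
    | zero =>
      obtain ⟨S, J, L, t, h1, h2, h3, -⟩ := P2 1 c (fun _ => z) (fun _ => hcz)
      exact ⟨S, J, L, t 0, trivial, h1, h2 0, h3⟩
    | succ n =>
      obtain ⟨m, a, v, hy, hg⟩ := exists_rep (A := A) (V := TP A n) z
      have hca : ∀ i, c * a i = 0 := fun i => hg (LinearMap.mulLeft ℂ c) hcz i
      obtain ⟨S, J, L, t, h1, h2, h3, h4⟩ := P2 m c a hca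
      have hy' : z = ∑ i, tm n (a i) (v i) := hy
      refine ⟨S, J, L, ∑ i, tm n (t i) (v i), ?_, h1, ?_, h3⟩
      · refine h4.bar v ?_
        rw [← hy']; exact hz
      · rw [hy', map_sum, map_sum, ← Finset.sum_sub_distrib]
        refine Finset.sum_congr rfl fun i _ => ?_
        rw [act_tm, lext_tm, h2 i]
        exact TensorProduct.sub_tmul _ _ _
  have core2 : ∀ (n : ℕ) (c : A) (z : TP A n), Cyc n z → act A n c z = 0 →
      ∃ y : TP A (n + 2), bar A (n + 1) y = tm n c z := by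
    intro n c z hz hcz
    obtain ⟨S, J, L, t, ht, h1, h2, h3⟩ := core n c z hz hcz
    obtain ⟨S₁, S₂, hS⟩ := P1' S
    refine ⟨tm (n + 1) S (tm n J z) +
      (tm (n + 1) S₁ (tm n (L.r S₂) t) - tm (n + 1) S₁ (tm n S₂ (lext L.l n t))), ?_⟩
    rw [map_add, move_mult ht, move_elt hz, h2, ← hS, h3, tm_sub, h1]
    abel
  refine ⟨?_, ?_⟩
  · intro a
    obtain ⟨c, b, h⟩ := P1' a
    exact ⟨tm 0 c b, h.symm⟩
  · intro n x hx
    obtain ⟨m, a, v, hy, -⟩ := exists_rep (A := A) (V := TP A n) x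
    obtain ⟨c, a', hc⟩ := P1 m a
    have hy' : x = ∑ i, tm n (a i) (v i) := hy
    let w : TP A (n + 1) := ∑ i, tm n (a' i) (v i)
    have hw : act A (n + 1) c w = x := by
      rw [hy', map_sum]
      refine Finset.sum_congr rfl fun i _ => ?_
      rw [act_tm, ← hc i]
    have hcz : act A n c (bar A n w) = 0 := by
      rw [← bar_act, hw, hx]
    obtain ⟨y, hy2⟩ := core2 n c (bar A n w) (cyc_bar n w) hcz
    refine ⟨tm (n + 1) c w + y, ?_⟩
    rw [map_add, bar_tm_succ, hy2, hw]
    abel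

end Pool.Agent.BarCx
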