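import Pool.Agent.BarCx.OpDefs

open scoped ENNReal

namespace Pool.Agent.BarCx

universe u

section Ops

variable (W : Type u) [NormedAddCommGroup W] [NormedSpace ℂ W]

/-- The space of bounded finite-rank operators on `W`. -/
def finRankSpace : Submodule ℂ (W →L[ℂ] W) where
  carrier := {T | IsFinRank T}
  add_mem' := IsFinRank.add
  zero_mem' := IsFinRank.zero
  smul_mem' := fun c _ hT => IsFinRank.smul c hT

theorem mul_mem_finRankSpace (S T : W →L[ℂ] W) (hS : S ∈ finRankSpace W)
    (hT : T ∈ finRankSpace W) : S * T ∈ finRankSpace W :=
  IsFinRank.mul hS hT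

/-- The algebra of bounded finite-rank operators on `W`. -/
noncomputable def finRank : NonUnitalSubalgebra ℂ (W →L[ℂ] W) :=
  (finRankSpace W).toNonUnitalSubalgebra (mul_mem_finRankSpace W)

/-- The algebra `F(W)` of approximable operators on `W`: the closure, in operator norm, of the
bounded finite-rank operators. -/
noncomputable def approx : NonUnitalSubalgebra ℂ (W →L[ℂ] W) := (finRank W).topologicalClosure

theorem approxHUnital_iff : ApproxHUnital W ↔ HUnital (approx W) := Iff.rfl

end Ops

end Pool.Agent.BarCx
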