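import Pool.Agent.BarCx.Shift
import Pool.Agent.BarCx.OpAux

open scoped ENNReal

namespace Pool.Agent.BarCx

universe u v

variable {W : Type u} [NormedAddCommGroup W] [NormedSpace ℂ W]
variable {G : ℕ → Type v} [∀ n, NormedAddCommGroup (G n)] [∀ n, NormedSpace ℂ (G n)]

/-- A sequence of uniformly complemented subspaces with weighted shifts. -/
structure Frame (W : Type u) [NormedAddCommGroup W] [NormedSpace ℂ W]
    (G : ℕ → Type v) [∀ n, NormedAddCommGroup (G n)] [∀ n, NormedSpace ℂ (G n)] where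
  ι : ∀ n, G n →L[ℂ] W
  π : ∀ n, W →L[ℂ] G n
  ι_le : ∀ n y, ‖ι n y‖ ≤ ‖y‖
  π_le : ∀ n w, ‖π n w‖ ≤ ‖w‖
  π_ι : ∀ n y, π n (ι n y) = y
  π_ι_ne : ∀ n n' y, n ≠ n' → π n' (ι n y) = 0
  shift : ∀ (m : ℕ → ℕ), Function.Injective m → ∀ (b : ∀ k, G (m k) →L[ℂ] G (m (k + 1)))
    (M : ℝ), 0 ≤ M → (∀ k x, ‖b k x‖ ≤ M * ‖x‖) → ∃ L : W →L[ℂ] W,
      (∀ k y, L (ι (m k) y) = ι (m (k + 1)) (b k y)) ∧
      (∀ k w, π (m (k + 1)) (L w) = b k (π (m k) w)) ∧ ∀ w, π (m 0) (L w) = 0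

theorem exists_frame (E : Type u) [NormedAddCommGroup E] [NormedSpace ℂ E] (p : ℝ≥0∞)
    [Fact (1 ≤ p)] (hp : p ≠ ∞) : Nonempty (Frame (E × lp G p) G) := by
  classical
  have hp0 : p ≠ 0 := (zero_lt_one.trans_le (Fact.out : 1 ≤ p)).ne'
  refine ⟨{
    ι := fun n => (ContinuousLinearMap.inr ℂ E (lp G p)).comp
      (lp.singleContinuousLinearMap ℂ G p n)
    π := fun n => (lp.evalCLM ℂ G p n).comp (ContinuousLinearMap.snd ℂ E (lp G p))
    ι_le := ?_
    π_le := ?_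
    π_ι := ?_
    π_ι_ne := ?_
    shift := ?_ }⟩
  · intro n y
    simp [Prod.norm_def, lp.norm_single (pos_iff_ne_zero.2 hp0)]
  · intro n w
    refine le_trans (lp.norm_apply_le_norm hp0 w.2 n) (norm_snd_le w)
  · intro n y
    exact lp.single_apply_self p n y
  · intro n n' y hn
    exact lp.single_apply_ne p n y (Ne.symm hn)
  · intro m hm b M hM hb
    obtain ⟨L, hL1, hL2⟩ := exists_shift p hp m hm b M hM hb
    refine ⟨(ContinuousLinearMap.inr ℂ E (lp G p)).comp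
      (L.comp (ContinuousLinearMap.snd ℂ E (lp G p))), ?_, ?_, ?_⟩
    · intro k y
      refine Prod.ext rfl ?_
      show L (lp.single p (m k) y) = lp.single p (m (k + 1)) (b k y)
      refine lp.ext (funext fun n => ?_)
      by_cases h : ∃ k', m (k' + 1) = n
      · obtain ⟨k', rfl⟩ := h
        rw [hL1]
        by_cases hk : k' = k
        · subst hk
          rw [lp.single_apply_self, lp.single_apply_self]
        · rw [lp.single_apply_ne _ _ _ (fun h => hk (hm h)),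
            lp.single_apply_ne _ _ _ (fun h => hk (by simpa using hm h)), map_zero]
      · have h' : ∀ k', m (k' + 1) ≠ n := fun k' hk' => h ⟨k', hk'⟩
        rw [hL2 _ _ h', lp.single_apply_ne _ _ _ (fun h => h' k h.symm)]
    · intro k w
      exact hL1 w.2 k
    · intro w
      exact hL2 w.2 (m 0) (fun k hk => by simpa using hm hk)

section Approx

theorem mem_approx_of_finRank {T : W →L[ℂ] W} (hT : T ∈ finRank W) : T ∈ approx W :=
  subset_closure hT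

theorem isClosed_approx : IsClosed (approx W : Set (W →L[ℂ] W)) := isClosed_closure

theorem comp_mem_finRank_left (β : W →L[ℂ] W) {T : W →L[ℂ] W} (hT : T ∈ finRank W) :
    β.comp T ∈ finRank W := by
  have hT' : FiniteDimensional ℂ (LinearMap.range (T : W →ₗ[ℂ] W)) := hT
  have : FiniteDimensional ℂ ((LinearMap.range (T : W →ₗ[ℂ] W)).map (β : W →ₗ[ℂ] W)) :=
    inferInstance
  refine Submodule.finiteDimensional_of_le (S₂ :=
    (LinearMap.range (T : W →ₗ[ℂ] W)).map (β : W →ₗ[ℂ] W)) ?_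
  rintro _ ⟨x, rfl⟩
  exact ⟨T x, ⟨x, rfl⟩, rfl⟩

theorem comp_mem_finRank_right {T : W →L[ℂ] W} (hT : T ∈ finRank W) (β : W →L[ℂ] W) :
    T.comp β ∈ finRank W := by
  have hT' : FiniteDimensional ℂ (LinearMap.range (T : W →ₗ[ℂ] W)) := hT
  refine Submodule.finiteDimensional_of_le (S₂ := LinearMap.range (T : W →ₗ[ℂ] W)) ?_
  rintro _ ⟨x, rfl⟩
  exact ⟨β x, rfl⟩

theorem comp_mem_approx_left (β : W →L[ℂ] W) {T : W →L[ℂ] W} (hT : T ∈ approx W) :
    β.comp T ∈ approx W := by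
  have hcont : Continuous (fun T : W →L[ℂ] W => β.comp T) :=
    (ContinuousLinearMap.compL ℂ W W W β).continuous
  exact map_mem_closure hcont hT (fun T hT => comp_mem_finRank_left β hT)

theorem comp_mem_approx_right {T : W →L[ℂ] W} (hT : T ∈ approx W) (β : W →L[ℂ] W) :
    T.comp β ∈ approx W := by
  have hcont : Continuous (fun T : W →L[ℂ] W => T.comp β) :=
    ((ContinuousLinearMap.compL ℂ W W W).flip β).continuous
  exact map_mem_closure (f := fun T : W →L[ℂ] W => T.comp β) hcont hT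
    (fun T hT => comp_mem_finRank_right hT β)

theorem mem_approx_of_hasSum {f : ℕ → W →L[ℂ] W} {a : W →L[ℂ] W}
    (hf : ∀ k, f k ∈ approx W) (h : HasSum f a) : a ∈ approx W :=
  isClosed_approx.mem_of_tendsto h (Filter.Eventually.of_forall fun _ =>
    sum_mem fun k _ => hf k)

theorem approx_seq {a : W →L[ℂ] W} (ha : a ∈ approx W) :
    ∃ s : ℕ → W →L[ℂ] W, (∀ k, s k ∈ finRank W) ∧ ∀ k, ‖a - s k‖ ≤ (1 / 8 : ℝ) ^ k := by
  have : ∀ k : ℕ, ∃ s ∈ finRank W, ‖a - s‖ ≤ (1 / 8 : ℝ) ^ k := by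
    intro k
    obtain ⟨s, hs, h⟩ := Metric.mem_closure_iff.1 ha ((1 / 8 : ℝ) ^ k) (by positivity)
    exact ⟨s, hs, by rw [← dist_eq_norm]; exact h.le⟩
  choose s hs h using this
  exact ⟨s, hs, h⟩

/-- increments of a sequence -/
noncomputable def incr (s : ℕ → W →L[ℂ] W) : ℕ → W →L[ℂ] W
  | 0 => s 0
  | k + 1 => s (k + 1) - s k

theorem sum_incr (s : ℕ → W →L[ℂ] W) (n : ℕ) :
    ∑ k ∈ Finset.range (n + 1), incr s k = s n := by
  induction n with
  | zero => simp [incr]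
  | succ n ih => rw [Finset.sum_range_succ, ih]; simp [incr]

theorem norm_incr_le {a : W →L[ℂ] W} {s : ℕ → W →L[ℂ] W}
    (h : ∀ k, ‖a - s k‖ ≤ (1 / 8 : ℝ) ^ k) (k : ℕ) :
    ‖incr s k‖ ≤ (‖a‖ + 9) * (1 / 8 : ℝ) ^ k := by
  cases k with
  | zero =>
    have h0 := h 0
    have : incr s 0 = a - (a - s 0) := by simp [incr]
    rw [this]
    calc ‖a - (a - s 0)‖ ≤ ‖a‖ + ‖a - s 0‖ := norm_sub_le _ _
      _ ≤ (‖a‖ + 9) * (1 / 8 : ℝ) ^ 0 := by simp only [pow_zero] at h0 ⊢; linarith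
  | succ k =>
    have h1 := h (k + 1)
    have h2 := h k
    have : incr s (k + 1) = (a - s k) - (a - s (k + 1)) := by simp [incr]
    rw [this]
    have hpos : (0 : ℝ) < (1 / 8 : ℝ) ^ (k + 1) := by positivity
    have h3 : (1 / 8 : ℝ) ^ k = 8 * (1 / 8 : ℝ) ^ (k + 1) := by rw [pow_succ]; ring
    calc ‖(a - s k) - (a - s (k + 1))‖ ≤ ‖a - s k‖ + ‖a - s (k + 1)‖ := norm_sub_le _ _
      _ ≤ 9 * (1 / 8 : ℝ) ^ (k + 1) := by linarith
      _ ≤ _ := by nlinarith [norm_nonneg a]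

theorem hasSum_incr [CompleteSpace W] {a : W →L[ℂ] W} {s : ℕ → W →L[ℂ] W}
    (h : ∀ k, ‖a - s k‖ ≤ (1 / 8 : ℝ) ^ k) : HasSum (incr s) a := by
  have hs : Summable (incr s) := by
    refine Summable.of_norm_bounded (g := fun k => (‖a‖ + 9) * (1 / 8 : ℝ) ^ k)
      ((summable_geometric_of_lt_one (by norm_num) (by norm_num)).mul_left _)
      (norm_incr_le h)
  have h1 := (hs.hasSum.tendsto_sum_nat).comp (Filter.tendsto_add_atTop_nat 1)
  have h2 : Filter.Tendsto s Filter.atTop (nhds a) := by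
    rw [tendsto_iff_norm_sub_tendsto_zero]
    refine squeeze_zero (fun k => norm_nonneg _) (fun k => ?_)
      (tendsto_pow_atTop_nhds_zero_of_lt_one (r := (1 / 8 : ℝ)) (by norm_num) (by norm_num))
    rw [norm_sub_rev]; exact h k
  have h3 : (fun n => ∑ k ∈ Finset.range n, incr s k) ∘ (fun n => n + 1) = s :=
    funext fun n => sum_incr s n
  rw [h3] at h1
  rw [← tendsto_nhds_unique h1 h2]
  exact hs.hasSum

end Approx

theorem block [CompleteSpace W] [∀ n, FiniteDimensional ℂ (G n)] (F : Frame W G)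
    (hG : BanachMazurDense G) (X : ℕ → Submodule ℂ W) (hX : ∀ k, FiniteDimensional ℂ (X k))
    (hmono : Monotone X) :
    ∃ (S L : W →L[ℂ] W) (τ : ℕ → W →L[ℂ] W), S ∈ approx W ∧ S.comp L = S ∧
      (∀ k, ∀ x ∈ X k, ‖τ k x‖ ≤ 2 * 2 ^ k * ‖x‖) ∧ (∀ k, τ k ∈ finRank W) ∧
      (∀ k, ∀ x ∈ X k, S (τ k x) = x) ∧ ∀ k, ∀ x ∈ X k, L (τ k x) = τ (k + 1) x := by
  have hP : ∀ k, ∃ᶠ n in Filter.atTop, ∃ (i : W →L[ℂ] G n) (r : G n →L[ℂ] W),
      (∀ x ∈ X k, r (i x) = x) ∧ (∀ x ∈ X k, ‖i x‖ ≤ 2 * ‖x‖) ∧ (∀ y, r y ∈ X k) ∧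
        ∀ y, ‖r y‖ ≤ ‖y‖ := by
    intro k
    rw [Filter.frequently_atTop]
    intro N₀
    have := hX k
    exact hG.exists_maps (X k) N₀
  obtain ⟨m, hm, h⟩ := Filter.extraction_forall_of_frequently hP
  choose i r h1 h2 h3 h4 using h
  let b : ∀ k, G (m k) →L[ℂ] G (m (k + 1)) := fun k => (2 : ℂ) • (i (k + 1)).comp (r k)
  have hb : ∀ k x, ‖b k x‖ ≤ 4 * ‖x‖ := by
    intro k x
    have e1 : b k x = (2 : ℂ) • i (k + 1) (r k x) := rfl
    rw [e1, norm_smul]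
    have e2 := h2 (k + 1) (r k x) (hmono (Nat.le_succ k) (h3 k x))
    have e3 := h4 k x
    simp only [Complex.norm_ofNat]
    linarith
  obtain ⟨L, hL1, hL2, hL3⟩ := F.shift m hm.injective b 4 (by norm_num) hb
  let σ : ℕ → W →L[ℂ] W := fun k => ((1 / 2 : ℂ) ^ k) • (r k).comp (F.π (m k))
  have hσ : ∀ k, ‖σ k‖ ≤ (1 / 2 : ℝ) ^ k := by
    intro k
    refine ContinuousLinearMap.opNorm_le_bound _ (by positivity) fun w => ?_
    have e1 : σ k w = ((1 / 2 : ℂ) ^ k) • r k (F.π (m k) w) := rfl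
    rw [e1, norm_smul, norm_pow]
    have e2 : ‖(1 / 2 : ℂ)‖ = 1 / 2 := by simp
    rw [e2]
    exact mul_le_mul_of_nonneg_left ((h4 k _).trans (F.π_le _ w)) (by positivity)
  have hsum : Summable σ := Summable.of_norm_bounded
    (summable_geometric_of_lt_one (r := (1 / 2 : ℝ)) (by norm_num) (by norm_num)) hσ
  have hfr : ∀ {n : ℕ} (r : G n →L[ℂ] W) (q : W →L[ℂ] G n), r.comp q ∈ finRank W := by
    intro n r q
    have : FiniteDimensional ℂ (LinearMap.range (r : G n →ₗ[ℂ] W)) := inferInstance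
    refine Submodule.finiteDimensional_of_le (S₂ := LinearMap.range (r : G n →ₗ[ℂ] W)) ?_
    rintro _ ⟨x, rfl⟩
    exact ⟨q x, rfl⟩
  have hSapp : ∀ w, HasSum (fun k => ((1 / 2 : ℂ) ^ k) • r k (F.π (m k) w)) ((∑' k, σ k) w) := by
    intro w
    exact hsum.hasSum.mapL (ContinuousLinearMap.apply ℂ W w)
  have hSι : ∀ k y, (∑' k, σ k) (F.ι (m k) y) = ((1 / 2 : ℂ) ^ k) • r k y := by
    intro k y
    refine (hSapp _).unique ?_
    have := hasSum_single (f := fun l => ((1 / 2 : ℂ) ^ l) • r l (F.π (m l) (F.ι (m k) y))) k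
      (fun l hl => by
        rw [F.π_ι_ne _ _ _ (fun h => hl (hm.injective h).symm), map_zero, smul_zero])
    simpa only [F.π_ι] using this
  refine ⟨∑' k, σ k, L, fun k => ((2 : ℂ) ^ k) • (F.ι (m k)).comp (i k), ?_, ?_, ?_, ?_, ?_, ?_⟩
  · refine mem_approx_of_hasSum (fun k => ?_) hsum.hasSum
    exact (approx W).smul_mem' _ (mem_approx_of_finRank (hfr _ _))
  · ext w
    refine (hSapp (L w)).unique ?_
    have e0 : ((1 / 2 : ℂ) ^ 0) • r 0 (F.π (m 0) (L w)) = 0 := by rw [hL3]; simp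
    have e1 : ∀ k, ((1 / 2 : ℂ) ^ (k + 1)) • r (k + 1) (F.π (m (k + 1)) (L w)) =
        ((1 / 2 : ℂ) ^ k) • r k (F.π (m k) w) := by
      intro k
      rw [hL2]
      have e2 : b k (F.π (m k) w) = (2 : ℂ) • i (k + 1) (r k (F.π (m k) w)) := rfl
      rw [e2, map_smul, h1 (k + 1) _ (hmono (Nat.le_succ k) (h3 k _)), smul_smul]
      congr 1
      rw [pow_succ]; ring
    have e3 := hSapp w
    have e4 : HasSum (fun k => ((1 / 2 : ℂ) ^ (k + 1)) • r (k + 1) (F.π (m (k + 1)) (L w)))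
        ((∑' k, σ k) w) := by
      simpa only [e1] using e3
    have e5 := HasSum.zero_add
      (f := fun k => ((1 / 2 : ℂ) ^ k) • r k (F.π (m k) (L w))) e4
    rw [e0, zero_add] at e5
    exact e5
  · intro k x hx
    have e1 : (((2 : ℂ) ^ k) • (F.ι (m k)).comp (i k)) x = ((2 : ℂ) ^ k) • F.ι (m k) (i k x) :=
      rfl
    rw [e1, norm_smul, norm_pow, Complex.norm_ofNat]
    have e2 := (F.ι_le (m k) (i k x)).trans (h2 k x hx)
    have : (0 : ℝ) < 2 ^ k := by positivity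
    nlinarith
  · intro k
    exact (finRank W).smul_mem' _ (hfr _ _)
  · intro k x hx
    have e1 : (((2 : ℂ) ^ k) • (F.ι (m k)).comp (i k)) x = ((2 : ℂ) ^ k) • F.ι (m k) (i k x) :=
      rfl
    rw [e1, map_smul, hSι, h1 k x hx, smul_smul, ← mul_pow]
    norm_num
  · intro k x hx
    have e1 : (((2 : ℂ) ^ k) • (F.ι (m k)).comp (i k)) x = ((2 : ℂ) ^ k) • F.ι (m k) (i k x) :=
      rfl
    have e2 : (((2 : ℂ) ^ (k + 1)) • (F.ι (m (k + 1))).comp (i (k + 1))) x =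
      ((2 : ℂ) ^ (k + 1)) • F.ι (m (k + 1)) (i (k + 1) x) := rfl
    have e3 : b k (i k x) = (2 : ℂ) • i (k + 1) (r k (i k x)) := rfl
    rw [e1, e2, map_smul, hL1, e3, h1 k x hx, map_smul, smul_smul, pow_succ]

end Pool.Agent.BarCx
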