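import Pool.Agent.BarCx.CptAux

open scoped ENNReal

namespace Pool.Agent.BarCx

universe u v

section Inc

/-- increments of a sequence -/
def inc {V : Type*} [AddCommGroup V] (s : ℕ → V) : ℕ → V
  | 0 => s 0
  | k + 1 => s (k + 1) - s k

theorem sum_inc {V : Type*} [AddCommGroup V] (s : ℕ → V) (n : ℕ) :
    ∑ k ∈ Finset.range (n + 1), inc s k = s n := by
  induction n with
  | zero => simp [inc]
  | succ n ih => rw [Finset.sum_range_succ, ih]; simp [inc]

variable {V : Type*} [NormedAddCommGroup V]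

theorem norm_inc_le {a : V} {s : ℕ → V}
    (h : ∀ k, ‖a - s k‖ ≤ (1 / 8 : ℝ) ^ k) (k : ℕ) :
    ‖inc s k‖ ≤ (‖a‖ + 9) * (1 / 8 : ℝ) ^ k := by
  cases k with
  | zero =>
    have h0 := h 0
    have : inc s 0 = a - (a - s 0) := by simp [inc]
    rw [this]
    calc ‖a - (a - s 0)‖ ≤ ‖a‖ + ‖a - s 0‖ := norm_sub_le _ _
      _ ≤ (‖a‖ + 9) * (1 / 8 : ℝ) ^ 0 := by simp only [pow_zero] at h0 ⊢; linarith
  | succ k =>
    have h1 := h (k + 1)
    have h2 := h k
    have : inc s (k + 1) = (a - s k) - (a - s (k + 1)) := by simp [inc]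
    rw [this]
    have hpos : (0 : ℝ) < (1 / 8 : ℝ) ^ (k + 1) := by positivity
    have h3 : (1 / 8 : ℝ) ^ k = 8 * (1 / 8 : ℝ) ^ (k + 1) := by rw [pow_succ]; ring
    calc ‖(a - s k) - (a - s (k + 1))‖ ≤ ‖a - s k‖ + ‖a - s (k + 1)‖ := norm_sub_le _ _
      _ ≤ 9 * (1 / 8 : ℝ) ^ (k + 1) := by linarith
      _ ≤ _ := by nlinarith [norm_nonneg a]

theorem hasSum_inc [CompleteSpace V] {a : V} {s : ℕ → V}
    (h : ∀ k, ‖a - s k‖ ≤ (1 / 8 : ℝ) ^ k) : HasSum (inc s) a := by
  have hs : Summable (inc s) := by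
    refine Summable.of_norm_bounded (g := fun k => (‖a‖ + 9) * (1 / 8 : ℝ) ^ k)
      ((summable_geometric_of_lt_one (by norm_num) (by norm_num)).mul_left _)
      (norm_inc_le h)
  have h1 := (hs.hasSum.tendsto_sum_nat).comp (Filter.tendsto_add_atTop_nat 1)
  have h2 : Filter.Tendsto s Filter.atTop (nhds a) := by
    rw [tendsto_iff_norm_sub_tendsto_zero]
    refine squeeze_zero (fun k => norm_nonneg _) (fun k => ?_)
      (tendsto_pow_atTop_nhds_zero_of_lt_one (r := (1 / 8 : ℝ)) (by norm_num) (by norm_num))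
    rw [norm_sub_rev]; exact h k
  have h3 : (fun n => ∑ k ∈ Finset.range n, inc s k) ∘ (fun n => n + 1) = s :=
    funext fun n => sum_inc s n
  rw [h3] at h1
  rw [← tendsto_nhds_unique h1 h2]
  exact hs.hasSum

end Inc

theorem cpt_of_hasSum {V V' : Type*} [NormedAddCommGroup V] [NormedSpace ℂ V]
    [NormedAddCommGroup V'] [NormedSpace ℂ V'] [CompleteSpace V'] {f : ℕ → V →L[ℂ] V'}
    {a : V →L[ℂ] V'} (hf : ∀ k, IsCompactOperator (f k)) (h : HasSum f a) :
    IsCompactOperator a :=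
  isCompactOperator_of_tendsto h (Filter.Eventually.of_forall fun s =>
    (Submodule.sum_mem (compactOperator (RingHom.id ℂ) V V') (f := f) (t := s) fun k _ => hf k))

section Fact

variable {W : Type u} [NormedAddCommGroup W] [NormedSpace ℂ W]
variable {G : ℕ → Type v} [∀ n, NormedAddCommGroup (G n)] [∀ n, NormedSpace ℂ (G n)]

/-- finite-rank approximations of the embedding along finitely many compact operators -/
theorem exists_P (m : ℕ) (a : Fin m → W →L[ℂ] W) (ha : ∀ i, IsCompactOperator (a i)) :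
    ∃ P : ℕ → W →L[ℂ] Lam W, (∀ k, FiniteDimensional ℂ (LinearMap.range (P k : W →ₗ[ℂ] Lam W))) ∧
      ∀ i k, ‖(emb (W := W)).toContinuousLinearMap.comp (a i) - (P k).comp (a i)‖ ≤
        (1 / 8 : ℝ) ^ k := by
  let M : Set W := ⋃ i, closure (a i '' Metric.closedBall 0 1)
  have hM : IsCompact M := isCompact_iUnion fun i =>
    IsCompactOperator.isCompact_closure_image_closedBall (𝕜₁ := ℂ) (f := (a i : W →ₗ[ℂ] W))
      (ha i) 1
  choose σ hσ1 hσ2 using fun k : ℕ =>
    exists_sigma M hM.totallyBounded ((1 / 8 : ℝ) ^ k) (by positivity)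
  refine ⟨fun k => (pull (σ k)).comp (emb (W := W)).toContinuousLinearMap, fun k => ?_,
    fun i k => ?_⟩
  · have := finite_range_pull (σ k) (hσ1 k)
    refine Submodule.finiteDimensional_of_le (S₂ :=
      LinearMap.range (pull (σ k) : Lam W →ₗ[ℂ] Lam W)) ?_
    rintro _ ⟨x, rfl⟩
    exact ⟨emb x, rfl⟩
  · refine ContinuousLinearMap.opNorm_le_bound _ (by positivity) fun w => ?_
    show ‖emb (a i w) - pull (σ k) (emb (a i w))‖ ≤ _
    rw [norm_sub_rev]
    by_cases hw : w = 0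
    · simp [hw]
    have hw0 : (0 : ℝ) < ‖w‖ := norm_pos_iff.2 hw
    have hc0 : ((‖w‖ : ℝ) : ℂ) ≠ 0 := by exact_mod_cast hw0.ne'
    let u : W := ((‖w‖ : ℝ) : ℂ)⁻¹ • w
    have hu : w = ((‖w‖ : ℝ) : ℂ) • u := by
      simp only [u]
      rw [smul_smul, mul_inv_cancel₀ hc0, one_smul]
    have hu1 : ‖u‖ ≤ 1 := by
      simp only [u]
      rw [norm_smul, norm_inv, Complex.norm_real, norm_norm, inv_mul_cancel₀ hw0.ne']
    have hmem : a i u ∈ M := Set.mem_iUnion.2 ⟨i, subset_closure ⟨u, by simpa using hu1, rfl⟩⟩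
    have h1 := hσ2 k (a i u) hmem
    have h2 : pull (σ k) (emb (a i w)) - emb (a i w) =
        ((‖w‖ : ℝ) : ℂ) • (pull (σ k) (emb (a i u)) - emb (a i u)) := by
      conv_lhs => rw [hu]
      simp only [map_smul, smul_sub]
    rw [h2, norm_smul, Complex.norm_real, norm_norm, mul_comm]
    exact mul_le_mul_of_nonneg_right h1 (norm_nonneg _)

/-- the range -/
noncomputable abbrev rg (D : W →L[ℂ] Lam W) : Submodule ℂ (Lam W) := LinearMap.range (D : W →ₗ[ℂ] Lam W)

theorem range_inc_finite (P : ℕ → W →L[ℂ] Lam W)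
    (hP : ∀ k, FiniteDimensional ℂ (LinearMap.range (P k : W →ₗ[ℂ] Lam W))) (k : ℕ) :
    FiniteDimensional ℂ (rg (inc P k)) := by
  cases k with
  | zero => exact hP 0
  | succ k =>
    have h1 := hP k
    have h2 := hP (k + 1)
    refine Submodule.finiteDimensional_of_le (S₂ :=
      LinearMap.range (P (k + 1) : W →ₗ[ℂ] Lam W) ⊔ LinearMap.range (P k : W →ₗ[ℂ] Lam W)) ?_
    rintro _ ⟨x, rfl⟩
    exact sub_mem (Submodule.mem_sup_left ⟨x, rfl⟩) (Submodule.mem_sup_right ⟨x, rfl⟩)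

theorem inc_comp (P : ℕ → W →L[ℂ] Lam W) (a : W →L[ℂ] W) (k : ℕ) :
    inc (fun k => (P k).comp a) k = (inc P k).comp a := by
  cases k with
  | zero => rfl
  | succ k => simp only [inc, ContinuousLinearMap.sub_comp]

/-- Factorization of finitely many compact operators. -/
theorem factor [∀ n, FiniteDimensional ℂ (G n)] (hG : BanachMazurDense G) (p : ℝ≥0∞)
    [Fact (1 ≤ p)] (m : ℕ) (a : Fin m → W →L[ℂ] W)
    (ha : ∀ i, IsCompactOperator (a i)) :
    ∃ (J : Fin m → W →L[ℂ] lp G p) (S : lp G p →L[ℂ] Lam W),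
      (∀ i, IsCompactOperator (J i)) ∧ IsCompactOperator S ∧
      (∀ i w, S (J i w) = emb (a i w)) ∧
      ∀ x : Fin m → W, ∑ i, a i (x i) = 0 → ∑ i, J i (x i) = 0 := by
  classical
  have hcompl : ∀ n, CompleteSpace (G n) := fun n => FiniteDimensional.complete ℂ (G n)
  have hp0 : p ≠ 0 := (zero_lt_one.trans_le (Fact.out : 1 ≤ p)).ne'
  obtain ⟨P, hP1, hP2⟩ := exists_P m a ha
  have hX := range_inc_finite P hP1
  have hfreq : ∀ k, ∃ᶠ n in Filter.atTop, ∃ (i : Lam W →L[ℂ] G n) (r : G n →L[ℂ] Lam W),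
      (∀ x ∈ rg (inc P k), r (i x) = x) ∧
      (∀ x ∈ rg (inc P k), ‖i x‖ ≤ 2 * ‖x‖) ∧
      (∀ y, r y ∈ rg (inc P k)) ∧ ∀ y, ‖r y‖ ≤ ‖y‖ := by
    intro k
    rw [Filter.frequently_atTop]
    intro N₀
    have := hX k
    exact hG.exists_maps _ N₀
  obtain ⟨n, hn, h⟩ := Filter.extraction_forall_of_frequently hfreq
  choose ι r h1 h2 h3 h4 using h
  let T : ℕ → W →L[ℂ] lp G p := fun k =>
    ((2 : ℂ) ^ k) • (lp.singleContinuousLinearMap ℂ G p (n k)).comp ((ι k).comp (inc P k))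
  have hT : ∀ k x, ‖T k x‖ ≤ 2 * 2 ^ k * ‖inc P k x‖ := by
    intro k x
    have e1 : T k x = ((2 : ℂ) ^ k) • lp.single p (n k) (ι k (inc P k x)) := rfl
    rw [e1, norm_smul, norm_pow, Complex.norm_ofNat, lp.norm_single (pos_iff_ne_zero.2 hp0)]
    have e2 := h2 k (inc P k x) ⟨x, rfl⟩
    calc 2 ^ k * ‖ι k (inc P k x)‖ ≤ 2 ^ k * (2 * ‖inc P k x‖) := by gcongr
      _ = _ := by ring
  have hinc : ∀ i k, ‖(inc P k).comp (a i)‖ ≤
      (‖(emb (W := W)).toContinuousLinearMap.comp (a i)‖ + 9) * (1 / 8 : ℝ) ^ k := by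
    intro i k
    rw [← inc_comp]
    exact norm_inc_le (hP2 i) k
  have hsumJ : ∀ i, Summable (fun k => (T k).comp (a i)) := by
    intro i
    set C := ‖(emb (W := W)).toContinuousLinearMap.comp (a i)‖ + 9 with hC
    have hC0 : 0 ≤ C := by positivity
    refine Summable.of_norm_bounded (g := fun k => (2 * C) * (1 / 4 : ℝ) ^ k)
      ((summable_geometric_of_lt_one (by norm_num) (by norm_num)).mul_left _) fun k => ?_
    refine ContinuousLinearMap.opNorm_le_bound _ (by positivity) fun w => ?_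
    have e1 := hT k (a i w)
    have e2 := ((inc P k).comp (a i)).le_of_opNorm_le (hinc i k) w
    have e3 : (1 / 4 : ℝ) ^ k = 2 ^ k * (1 / 8 : ℝ) ^ k := by rw [← mul_pow]; norm_num
    calc ‖((T k).comp (a i)) w‖ ≤ 2 * 2 ^ k * ‖inc P k (a i w)‖ := e1
      _ ≤ 2 * 2 ^ k * (C * (1 / 8 : ℝ) ^ k * ‖w‖) := by
        refine mul_le_mul_of_nonneg_left e2 (by positivity)
      _ = 2 * C * (1 / 4 : ℝ) ^ k * ‖w‖ := by rw [e3]; ring
  let R : ℕ → lp G p →L[ℂ] Lam W := fun k =>
    ((1 / 2 : ℂ) ^ k) • (r k).comp (lp.evalCLM ℂ G p (n k))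
  have hsumS : Summable R := by
    refine Summable.of_norm_bounded (g := fun k => (1 / 2 : ℝ) ^ k)
      (summable_geometric_of_lt_one (by norm_num) (by norm_num)) fun k => ?_
    refine ContinuousLinearMap.opNorm_le_bound _ (by positivity) fun y => ?_
    have e1 : R k y = ((1 / 2 : ℂ) ^ k) • r k (y (n k)) := rfl
    rw [e1, norm_smul, norm_pow]
    have e2 : ‖(1 / 2 : ℂ)‖ = 1 / 2 := by simp
    rw [e2]
    have e3 := (h4 k (y (n k))).trans (lp.norm_apply_le_norm hp0 y (n k))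
    exact mul_le_mul_of_nonneg_left e3 (by positivity)
  have hRT : ∀ x : ℕ × W, (∑' k, R k) (T x.1 x.2) = inc P x.1 x.2 := by
    rintro ⟨k, x⟩
    have e1 : HasSum (fun l => R l (T k x)) ((∑' k, R k) (T k x)) :=
      hsumS.hasSum.mapL (ContinuousLinearMap.apply ℂ (Lam W) (T k x))
    have e2 : ∀ l, l ≠ k → R l (T k x) = 0 := by
      intro l hl
      show ((1 / 2 : ℂ) ^ l) • r l ((T k x : lp G p) (n l)) = 0
      have e3 : (T k x : lp G p) (n l) = 0 := by
        show (((2 : ℂ) ^ k) • lp.single p (n k) (ι k (inc P k x)) : lp G p) (n l) = 0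
        rw [lp.coeFn_smul, Pi.smul_apply, lp.single_apply_ne _ _ _
          (fun h => hl (hn.injective h)), smul_zero]
      rw [e3, map_zero, smul_zero]
    have e3 : R k (T k x) = inc P k x := by
      show ((1 / 2 : ℂ) ^ k) • r k ((T k x : lp G p) (n k)) = _
      have e4 : (T k x : lp G p) (n k) = ((2 : ℂ) ^ k) • ι k (inc P k x) := by
        show (((2 : ℂ) ^ k) • lp.single p (n k) (ι k (inc P k x)) : lp G p) (n k) = _
        rw [lp.coeFn_smul, Pi.smul_apply, lp.single_apply_self]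
      have e5 : r k (ι k (inc P k x)) = inc P k x := h1 k (inc P k x) ⟨x, rfl⟩
      rw [e4, map_smul, smul_smul, ← mul_pow, e5]
      norm_num
    have e5 := hasSum_single (f := fun l => R l (T k x)) k e2
    rw [e1.unique e5]
    exact e3
  refine ⟨fun i => ∑' k, (T k).comp (a i), ∑' k, R k, fun i => ?_, ?_, fun i w => ?_,
    fun x hx => ?_⟩
  · refine cpt_of_hasSum (fun k => ?_) (hsumJ i).hasSum
    exact (ha i).clm_comp (T k)
  · refine cpt_of_hasSum (fun k => ?_) hsumS.hasSum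
    have : ProperSpace (G (n k)) := FiniteDimensional.proper ℂ _
    have e1 : IsCompactOperator (lp.evalCLM ℂ G p (n k)) :=
      isCompactOperator_of_locallyCompactSpace_dom _
    exact (e1.clm_comp (r k)).smul ((1 / 2 : ℂ) ^ k)
  · have e1 : HasSum (fun k => (∑' k, R k) (T k (a i w)))
        ((∑' k, R k) ((∑' k, (T k).comp (a i)) w)) := by
      have e2 : HasSum (fun k => T k (a i w)) ((∑' k, (T k).comp (a i)) w) :=
        (hsumJ i).hasSum.mapL (ContinuousLinearMap.apply ℂ (lp G p) w)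
      exact e2.mapL (∑' k, R k)
    have e3 : HasSum (fun k => inc P k (a i w)) (emb (a i w)) := by
      have e4 : HasSum (fun k => inc (fun k => (P k).comp (a i)) k)
          ((emb (W := W)).toContinuousLinearMap.comp (a i)) := hasSum_inc (hP2 i)
      simp only [inc_comp] at e4
      exact e4.mapL (ContinuousLinearMap.apply ℂ (Lam W) w)
    have e4 : (fun k => (∑' k, R k) (T k (a i w))) = fun k => inc P k (a i w) := by
      funext k
      exact hRT (k, a i w)
    rw [e4] at e1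
    exact e1.unique e3
  · have e1 : HasSum (fun k => ∑ i, T k (a i (x i)))
        (∑ i, (∑' k, (T k).comp (a i)) (x i)) := by
      refine hasSum_sum fun i _ => ?_
      exact (hsumJ i).hasSum.mapL (ContinuousLinearMap.apply ℂ (lp G p) (x i))
    have e2 : (fun k => ∑ i, T k (a i (x i))) = fun _ => 0 := by
      funext k
      rw [← map_sum, hx, map_zero]
    rw [e2] at e1
    exact e1.unique hasSum_zero

end Fact

end Pool.Agent.BarCx
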