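import Pool.Agent.BarCx.OpDefs

open scoped ENNReal

namespace Pool.Agent.BarCx

universe u v

section Shift

variable {G : ℕ → Type v} [∀ n, NormedAddCommGroup (G n)] [∀ n, NormedSpace ℂ (G n)]

/-- A weighted shift on an `ℓ_p`-sum. -/
theorem exists_shift (p : ℝ≥0∞) [Fact (1 ≤ p)] (hp : p ≠ ∞) (m : ℕ → ℕ)
    (hm : Function.Injective m) (b : ∀ k, G (m k) →L[ℂ] G (m (k + 1))) (M : ℝ) (hM : 0 ≤ M)
    (hb : ∀ k x, ‖b k x‖ ≤ M * ‖x‖) :
    ∃ L : lp G p →L[ℂ] lp G p, (∀ x k, (L x : ∀ n, G n) (m (k + 1)) = b k (x (m k))) ∧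
      ∀ x n, (∀ k, m (k + 1) ≠ n) → (L x : ∀ n, G n) n = 0 := by
  classical
  have hp0 : 0 < p.toReal :=
    ENNReal.toReal_pos (zero_lt_one.trans_le (Fact.out : 1 ≤ p)).ne' hp
  let φ : ℕ → ℕ := fun k => m (k + 1)
  have hφ : Function.Injective φ := fun a b h => by simpa using hm h
  let y : (∀ n, G n) → ∀ n, G n := fun x n =>
    if h : ∃ k, φ k = n then h.choose_spec ▸ b h.choose (x (m h.choose)) else 0
  have hy1 : ∀ x k, y x (m (k + 1)) = b k (x (m k)) := by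
    intro x k
    have h : ∃ k', φ k' = m (k + 1) := ⟨k, rfl⟩
    have aux : ∀ k' (e : φ k' = m (k + 1)), (e ▸ b k' (x (m k')) : G (m (k + 1))) =
        b k (x (m k)) := by
      intro k' e
      have : k' = k := hφ e
      subst this
      rfl
    simp only [y, dif_pos h]
    exact aux _ _
  have hy2 : ∀ x n, (∀ k, m (k + 1) ≠ n) → y x n = 0 := by
    intro x n hn
    have : ¬ ∃ k, φ k = n := fun ⟨k, hk⟩ => hn k hk
    simp only [y, dif_neg this]
  have hsum : ∀ x : lp G p, Summable (fun k => ‖(x : ∀ n, G n) (m k)‖ ^ p.toReal) := fun x =>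
    ((lp.memℓp x).summable hp0).comp_injective hm
  have hle : ∀ (x : lp G p) k, ‖y x (φ k)‖ ^ p.toReal ≤
      M ^ p.toReal * ‖(x : ∀ n, G n) (m k)‖ ^ p.toReal := by
    intro x k
    rw [← Real.mul_rpow hM (norm_nonneg _)]
    refine Real.rpow_le_rpow (norm_nonneg _) ?_ hp0.le
    simp only [φ, hy1]
    exact hb k _
  have hsum2 : ∀ x : lp G p, Summable (fun k => ‖y x (φ k)‖ ^ p.toReal) := fun x =>
    Summable.of_nonneg_of_le (fun k => Real.rpow_nonneg (norm_nonneg _) _) (hle x)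
      ((hsum x).mul_left _)
  have hzero : ∀ (x : lp G p), ∀ n ∉ Set.range φ, ‖y x n‖ ^ p.toReal = 0 := by
    intro x n hn
    rw [hy2 x n (fun k hk => hn ⟨k, hk⟩), norm_zero, Real.zero_rpow hp0.ne']
  have hmem : ∀ x : lp G p, Memℓp (y x) p := fun x =>
    memℓp_gen ((hφ.summable_iff (f := fun n => ‖y x n‖ ^ p.toReal) (hzero x)).1 (hsum2 x))
  have hadd : ∀ x x', y (x + x') = y x + y x' := by
    intro x x'
    funext n
    by_cases h : ∃ k, φ k = n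
    · obtain ⟨k, rfl⟩ := h
      simp only [φ, hy1, Pi.add_apply, map_add]
    · have h' : ∀ k, m (k + 1) ≠ n := fun k hk => h ⟨k, hk⟩
      simp only [Pi.add_apply, hy2 _ n h', add_zero]
  have hsmul : ∀ (c : ℂ) x, y (c • x) = c • y x := by
    intro c x
    funext n
    by_cases h : ∃ k, φ k = n
    · obtain ⟨k, rfl⟩ := h
      simp only [φ, hy1, Pi.smul_apply, map_smul]
    · have h' : ∀ k, m (k + 1) ≠ n := fun k hk => h ⟨k, hk⟩
      simp only [Pi.smul_apply, hy2 _ n h', smul_zero]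
  let L₀ : lp G p →ₗ[ℂ] lp G p :=
    { toFun := fun x => ⟨y x, hmem x⟩
      map_add' := fun x x' => lp.ext (hadd x x')
      map_smul' := fun c x => lp.ext (hsmul c x) }
  refine ⟨L₀.mkContinuous M ?_, fun x k => hy1 x k, fun x n hn => hy2 x n hn⟩
  intro x
  refine lp.norm_le_of_tsum_le hp0 (by positivity) ?_
  have h1 : ∑' n, ‖y x n‖ ^ p.toReal = ∑' k, ‖y x (φ k)‖ ^ p.toReal := by
    refine (hφ.tsum_eq (f := fun n => ‖y x n‖ ^ p.toReal) ?_).symm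
    intro n hn
    by_contra h
    exact hn (hzero x n h)
  show ∑' n, ‖y x n‖ ^ p.toReal ≤ _
  rw [h1, Real.mul_rpow hM (norm_nonneg _), lp.norm_rpow_eq_tsum hp0, ← tsum_mul_left]
  calc ∑' k, ‖y x (φ k)‖ ^ p.toReal
      ≤ ∑' k, M ^ p.toReal * ‖(x : ∀ n, G n) (m k)‖ ^ p.toReal :=
        Summable.tsum_le_tsum (hle x) (hsum2 x) ((hsum x).mul_left _)
    _ ≤ ∑' n, M ^ p.toReal * ‖(x : ∀ n, G n) n‖ ^ p.toReal :=
        tsum_comp_le_tsum_of_inj (((lp.memℓp x).summable hp0).mul_left _)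
          (fun n => by positivity) hm

end Shift

section Density

theorem exists_big (N₀ : ℕ) (φ : ℕ → ℕ) (hφ : Function.Injective φ) : ∃ j, N₀ ≤ φ j := by
  by_contra h
  push Not at h
  exact not_injective_infinite_finite (fun j => (⟨φ j, h j⟩ : Fin N₀)) fun a b hab => by
    simpa using hφ (by simpa using hab)

variable {G : ℕ → Type v} [∀ n, NormedAddCommGroup (G n)] [∀ n, NormedSpace ℂ (G n)]

theorem BanachMazurDense.exists_iso (hG : BanachMazurDense G) (Z : Type u)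
    [NormedAddCommGroup Z] [NormedSpace ℂ Z] [FiniteDimensional ℂ Z]
    (hZ : 0 < Module.finrank ℂ Z) :
    ∃ (n : ℕ) (e : Z ≃ₗ[ℂ] G n), ∀ z, ‖z‖ ≤ ‖e z‖ ∧ ‖e z‖ ≤ 2 * ‖z‖ := by
  obtain ⟨d, hd⟩ : ∃ d, Module.finrank ℂ Z = d + 1 := ⟨_, (Nat.succ_pred_eq_of_pos hZ).symm⟩
  let c : (Fin (d + 1) → ℂ) ≃ₗ[ℂ] Z :=
    (Module.finBasisOfFinrankEq ℂ Z hd).equivFun.symm
  obtain ⟨n, e, he⟩ := hG d ((normSeminorm ℂ Z).comp c.toLinearMap)
    (fun x hx => by simpa using hx) 1 one_pos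
  refine ⟨n, c.symm.trans e, fun z => ?_⟩
  have := he (c.symm z)
  simp only [Seminorm.comp_apply, LinearEquiv.coe_coe, LinearEquiv.apply_symm_apply,
    coe_normSeminorm] at this
  refine ⟨this.1, ?_⟩
  calc _ ≤ _ := this.2
    _ = _ := by ring

variable {W : Type u} [NormedAddCommGroup W] [NormedSpace ℂ W]

theorem BanachMazurDense.exists_maps (hG : BanachMazurDense G)
    (X : Submodule ℂ W) [FiniteDimensional ℂ X] (N₀ : ℕ) :
    ∃ n, N₀ ≤ n ∧ ∃ (i : W →L[ℂ] G n) (r : G n →L[ℂ] W), (∀ x ∈ X, r (i x) = x) ∧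
      (∀ x ∈ X, ‖i x‖ ≤ 2 * ‖x‖) ∧ (∀ y, r y ∈ X) ∧ ∀ y, ‖r y‖ ≤ ‖y‖ := by
  have h1 : ∀ j : ℕ, ∃ (n : ℕ) (e : (X × (Fin (j + 1) → ℂ)) ≃ₗ[ℂ] G n),
      ∀ z, ‖z‖ ≤ ‖e z‖ ∧ ‖e z‖ ≤ 2 * ‖z‖ := by
    intro j
    refine hG.exists_iso _ ?_
    simp only [Module.finrank_prod, Module.finrank_fin_fun]
    omega
  choose φ e he using h1
  have hφ : Function.Injective φ := by
    intro a b hab
    have ha := (e a).finrank_eq
    have hb := (e b).finrank_eq
    simp only [Module.finrank_prod, Module.finrank_fin_fun] at ha hb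
    rw [hab] at ha
    omega
  obtain ⟨j, hj⟩ := exists_big N₀ φ hφ
  refine ⟨φ j, hj, ?_⟩
  let i₀ : X →ₗ[ℂ] G (φ j) := (e j).toLinearMap ∘ₗ LinearMap.inl ℂ X _
  let i₁ : X →L[ℂ] G (φ j) := i₀.mkContinuous 2 (fun x => by
    have := (he j (x, 0)).2
    simpa [i₀, Prod.norm_def] using this)
  have : FiniteDimensional ℂ (LinearMap.range (i₁ : X →ₗ[ℂ] G (φ j))) := inferInstance
  obtain ⟨i, hi⟩ := ContinuousLinearMap.exist_extension_of_finiteDimensional_range i₁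
  let r₀ : G (φ j) →ₗ[ℂ] W := X.subtype ∘ₗ LinearMap.fst ℂ X _ ∘ₗ (e j).symm.toLinearMap
  have hr₀ : ∀ y, ‖r₀ y‖ ≤ 1 * ‖y‖ := by
    intro y
    have h2 := (he j ((e j).symm y)).1
    rw [LinearEquiv.apply_symm_apply] at h2
    rw [one_mul]
    refine le_trans ?_ h2
    exact norm_fst_le ((e j).symm y)
  have hiX : ∀ x (hx : x ∈ X), i x = e j (⟨x, hx⟩, 0) := by
    intro x hx
    have : i₁ ⟨x, hx⟩ = i x := by rw [hi]; rfl
    rw [← this]; rfl
  refine ⟨i, r₀.mkContinuous 1 hr₀, ?_, ?_, ?_, ?_⟩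
  · intro x hx
    rw [hiX x hx]
    simp [r₀]
  · intro x hx
    rw [hiX x hx]
    have := (he j (⟨x, hx⟩, 0)).2
    simpa [Prod.norm_def] using this
  · intro y
    simp [r₀]
  · intro y
    have := hr₀ y
    rw [one_mul] at this
    exact this

end Density

end Pool.Agent.BarCx
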