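import Pool.Agent.BarCx.CptDefs
import Pool.Agent.BarCx.Alg
import Pool.Agent.BarCx.Shift

open scoped ENNReal

namespace Pool.Agent.BarCx

universe u v

section Alg

variable {A : Type u} [NonUnitalRing A] [Module ℂ A] [IsScalarTower ℂ A A] [SMulCommClass ℂ A A]

/-- A second criterion for H-unitality. -/
theorem hunital_of_family
    (P : ∀ (m : ℕ) (a : Fin m → A), ∃ (c : A) (a' : Fin m → A),
      (∀ i, a i = c * a' i) ∧ Rel a a') : HUnital A := by
  refine ⟨?_, ?_⟩
  · intro a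
    obtain ⟨c, a', h, -⟩ := P 1 (fun _ => a)
    exact ⟨tm 0 c (a' 0), (h 0).symm⟩
  · intro n x hx
    obtain ⟨m, a, v, hy, -⟩ := exists_rep (A := A) (V := TP A n) x
    obtain ⟨c, a', hc, hr⟩ := P m a
    have hy' : x = ∑ i, tm n (a i) (v i) := hy
    have hw : act A (n + 1) c (∑ i, tm n (a' i) (v i)) = x := by
      rw [hy', map_sum]
      refine Finset.sum_congr rfl fun i _ => ?_
      rw [act_tm, ← hc i]
    refine ⟨tm (n + 1) c (∑ i, tm n (a' i) (v i)), ?_⟩
    rw [bar_tm_succ, hw, hr.bar v (by rw [← hy']; exact hx), tm_zero, sub_zero]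

end Alg

section Embed

variable (W : Type u) [NormedAddCommGroup W] [NormedSpace ℂ W]

/-- functionals of norm at most one -/
abbrev DBall : Type u := {φ : StrongDual ℂ W // ‖φ‖ ≤ 1}

/-- bounded functions on the dual ball -/
abbrev Lam : Type u := lp (fun _ : DBall W => ℂ) ∞

variable {W}

theorem dball_le (φ : DBall W) (x : W) : ‖φ.1 x‖ ≤ ‖x‖ := by
  have := φ.1.le_of_opNorm_le φ.2 x
  rwa [one_mul] at this

/-- the canonical embedding -/
noncomputable def emb : W →ₗᵢ[ℂ] Lam W where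
  toFun x := ⟨fun φ => φ.1 x, memℓp_infty ⟨‖x‖, by rintro _ ⟨φ, rfl⟩; exact dball_le φ x⟩⟩
  map_add' x y := lp.ext (funext fun φ => map_add φ.1 x y)
  map_smul' c x := lp.ext (funext fun φ => map_smul φ.1 c x)
  norm_map' x := by
    refine le_antisymm ?_ ?_
    · exact lp.norm_le_of_forall_le (norm_nonneg x) fun φ => dball_le φ x
    · obtain ⟨g, hg, hgx⟩ := exists_dual_vector'' ℂ x
      have h1 := lp.norm_apply_le_norm ENNReal.top_ne_zero
        (⟨fun φ => φ.1 x, memℓp_infty ⟨‖x‖, by rintro _ ⟨φ, rfl⟩; exact dball_le φ x⟩⟩ : Lam W)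
        (⟨g, hg⟩ : DBall W)
      have h2 : ‖g x‖ = ‖x‖ := by rw [hgx]; simp
      rw [← h2]
      exact h1

theorem emb_apply (x : W) (φ : DBall W) : (emb x : Lam W) φ = φ.1 x := rfl

/-- composition with a self-map of the dual ball -/
noncomputable def pull (σ : DBall W → DBall W) : Lam W →L[ℂ] Lam W :=
  LinearMap.mkContinuous
    { toFun := fun f => ⟨fun φ => f (σ φ), memℓp_infty ⟨‖f‖, by
        rintro _ ⟨φ, rfl⟩; exact lp.norm_apply_le_norm ENNReal.top_ne_zero f (σ φ)⟩⟩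
      map_add' := fun _ _ => rfl
      map_smul' := fun _ _ => rfl } 1 (fun f => by
        rw [one_mul]
        exact lp.norm_le_of_forall_le (norm_nonneg f)
          fun φ => lp.norm_apply_le_norm ENNReal.top_ne_zero f (σ φ))

theorem pull_apply (σ : DBall W → DBall W) (f : Lam W) (φ : DBall W) :
    (pull σ f : Lam W) φ = f (σ φ) := rfl

theorem finite_range_pull (σ : DBall W → DBall W) (hσ : (Set.range σ).Finite) :
    FiniteDimensional ℂ (LinearMap.range (pull σ : Lam W →ₗ[ℂ] Lam W)) := by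
  have : Fintype (Set.range σ) := hσ.fintype
  let R : (Set.range σ → ℂ) →ₗ[ℂ] Lam W :=
    { toFun := fun v => ⟨fun φ => v ⟨σ φ, φ, rfl⟩, memℓp_infty ⟨‖v‖, by
        rintro _ ⟨φ, rfl⟩; exact norm_le_pi_norm v _⟩⟩
      map_add' := fun _ _ => rfl
      map_smul' := fun _ _ => rfl }
  refine Submodule.finiteDimensional_of_le (S₂ := LinearMap.range R) ?_
  rintro _ ⟨f, rfl⟩
  exact ⟨fun φ => f φ.1, rfl⟩

/-- approximation of the embedding on a compact set -/
theorem exists_sigma (M : Set W) (hM : TotallyBounded M) (ε : ℝ) (hε : 0 < ε) :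
    ∃ σ : DBall W → DBall W, (Set.range σ).Finite ∧
      ∀ x ∈ M, ‖pull σ (emb x) - emb x‖ ≤ ε := by
  classical
  obtain ⟨t, ht, hMt⟩ := Metric.totallyBounded_iff.1 hM (ε / 4) (by positivity)
  have : Fintype t := ht.fintype
  let Φ : DBall W → (t → ℂ) := fun φ y => φ.1 y.1
  have hbd : Bornology.IsBounded (Set.range Φ) := by
    refine (Metric.isBounded_iff_subset_closedBall 0).2 ⟨∑ y : t, ‖(y : W)‖, ?_⟩
    rintro _ ⟨φ, rfl⟩
    rw [mem_closedBall_zero_iff, pi_norm_le_iff_of_nonneg (by positivity)]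
    intro y
    exact (dball_le φ y.1).trans
      (Finset.single_le_sum (f := fun y : t => ‖(y : W)‖) (fun _ _ => norm_nonneg _)
        (Finset.mem_univ y))
  have htb : TotallyBounded (Set.range Φ) :=
    (Bornology.IsBounded.isCompact_closure hbd).totallyBounded.subset subset_closure
  obtain ⟨s, hs, hsf, hcov⟩ := Metric.finite_approx_of_totallyBounded htb (ε / 4) (by positivity)
  have h1 : ∀ z : s, ∃ φ, Φ φ = z := fun z => hs z.2
  choose g hg using h1
  have h2 : ∀ φ, ∃ z : s, dist (Φ φ) z < ε / 4 := by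
    intro φ
    have := hcov ⟨φ, rfl⟩
    simp only [Set.mem_iUnion, Metric.mem_ball, exists_prop] at this
    obtain ⟨z, hz, hd⟩ := this
    exact ⟨⟨z, hz⟩, hd⟩
  choose z hz using h2
  refine ⟨fun φ => g (z φ), ?_, ?_⟩
  · have : Finite s := hsf
    exact (Set.finite_range g).subset (by rintro _ ⟨φ, rfl⟩; exact ⟨z φ, rfl⟩)
  · intro x hx
    refine lp.norm_le_of_forall_le hε.le fun φ => ?_
    have hx' := hMt hx
    simp only [Set.mem_iUnion, Metric.mem_ball, exists_prop] at hx'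
    obtain ⟨y, hy, hxy⟩ := hx'
    rw [dist_eq_norm] at hxy
    show ‖(g (z φ)).1 x - φ.1 x‖ ≤ ε
    have e1 : (g (z φ)).1 x - φ.1 x = (g (z φ)).1 (x - y) +
        (((g (z φ)).1 y - φ.1 y) - φ.1 (x - y)) := by
      simp only [map_sub]; ring
    have e2 : ‖(g (z φ)).1 y - φ.1 y‖ ≤ ε / 4 := by
      have h3 : dist (Φ φ ⟨y, hy⟩) (Φ (g (z φ)) ⟨y, hy⟩) ≤ dist (Φ φ) (Φ (g (z φ))) :=
        dist_le_pi_dist _ _ _
      rw [hg (z φ)] at h3
      have h4 := h3.trans (hz φ).le
      rw [dist_comm, dist_eq_norm] at h4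
      rw [← hg (z φ)] at h4
      exact h4
    rw [e1]
    calc _ ≤ ‖(g (z φ)).1 (x - y)‖ + ‖((g (z φ)).1 y - φ.1 y) - φ.1 (x - y)‖ := norm_add_le _ _
      _ ≤ ‖x - y‖ + (ε / 4 + ‖x - y‖) := by
        refine add_le_add (dball_le _ _) ((norm_sub_le _ _).trans (add_le_add e2 (dball_le _ _)))
      _ ≤ ε := by linarith

end Embed

end Pool.Agent.BarCx
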