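import Pool.Agent.BarCx.OpDefs

open scoped ENNReal

namespace Pool.Agent.BarCx

universe u v

section Ops

variable {W : Type u} [NormedAddCommGroup W] [NormedSpace ℂ W]

/-- The bounded operator `T` is compact. -/
def IsCpt (T : W →L[ℂ] W) : Prop := IsCompactOperator T

theorem IsCpt.add {S T : W →L[ℂ] W} (hS : IsCpt S) (hT : IsCpt T) : IsCpt (S + T) :=
  IsCompactOperator.add hS hT

theorem IsCpt.zero : IsCpt (0 : W →L[ℂ] W) := isCompactOperator_zero

theorem IsCpt.mul {S T : W →L[ℂ] W} (hS : IsCpt S) (_ : IsCpt T) : IsCpt (S * T) :=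
  IsCompactOperator.comp_clm hS T

theorem IsCpt.smul (c : ℂ) {T : W →L[ℂ] W} (hT : IsCpt T) : IsCpt (c • T) :=
  IsCompactOperator.smul hT c

variable (W)

/-- The space of compact operators on `W`. -/
noncomputable def opCompactSpace : Submodule ℂ (Op W) where
  carrier := {T | IsCpt T}
  add_mem' := fun hS hT => IsCpt.add hS hT
  zero_mem' := IsCpt.zero
  smul_mem' := fun c _ hT => IsCpt.smul c hT

theorem mul_mem_opCompactSpace (S T : Op W) (hS : S ∈ opCompactSpace W)
    (hT : T ∈ opCompactSpace W) : S * T ∈ opCompactSpace W :=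
  IsCpt.mul hS hT

/-- The algebra `K(W)` of compact operators on `W`. -/
noncomputable def opCompact : NonUnitalSubalgebra ℂ (Op W) :=
  (opCompactSpace W).toNonUnitalSubalgebra (mul_mem_opCompactSpace W)

/-- The algebra `K(W)` as a type. -/
def KW : Type u := opCompact W

noncomputable instance kwRing : NonUnitalRing (KW W) := (opCompact W).toNonUnitalRing

noncomputable instance kwMod : Module ℂ (KW W) := NonUnitalSubalgebra.instModule

instance kwTower : IsScalarTower ℂ (KW W) (KW W) :=
  NonUnitalSubalgebra.instIsScalarTowerSubtypeMem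

instance kwComm : SMulCommClass ℂ (KW W) (KW W) :=
  NonUnitalSubalgebra.instSMulCommClass

/-- The algebra `K(W)` of compact operators on `W` is H-unital. -/
def CompactHUnital : Prop := HUnital (KW W)

/-- Every closed linear subspace `F` of the Banach space `C` is isomorphic to a complemented
subspace of `W`: there are bounded linear maps `F → W → F` whose composition is the identity. -/
def HasSubspaces (C : Type v) [NormedAddCommGroup C] [NormedSpace ℂ C] : Prop :=
  ∀ F : Submodule ℂ C, IsClosed (F : Set C) →
    ∃ (i : F →L[ℂ] W) (q : W →L[ℂ] F), ∀ x, q (i x) = x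

end Ops

/-- The closed linear subspaces of `C`. -/
def ClosedSub (C : Type v) [NormedAddCommGroup C] [NormedSpace ℂ C] : Type v :=
  {F : Submodule ℂ C // IsClosed (F : Set C)}

/-- A closed linear subspace of `C` as a normed space. -/
def SubSpace (C : Type v) [NormedAddCommGroup C] [NormedSpace ℂ C] (F : ClosedSub C) : Type v :=
  F.1

noncomputable instance subSpaceGroup (C : Type v) [NormedAddCommGroup C] [NormedSpace ℂ C]
    (F : ClosedSub C) : NormedAddCommGroup (SubSpace C F) := Submodule.normedAddCommGroup F.1

noncomputable instance subSpaceSpace (C : Type v) [NormedAddCommGroup C] [NormedSpace ℂ C]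
    (F : ClosedSub C) : NormedSpace ℂ (SubSpace C F) := Submodule.normedSpace F.1

/-- The `ℓ_p`-sum of all closed linear subspaces of `C`. -/
abbrev AllSub (C : Type v) [NormedAddCommGroup C] [NormedSpace ℂ C] (p : ℝ≥0∞) : Type v :=
  lp (SubSpace C) p

end Pool.Agent.BarCx
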