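import Pool.Agent.BarCx.Cpt

open scoped ENNReal

namespace Pool.Agent.BarCx

universe u v

section Main

variable (W : Type u) [NormedAddCommGroup W] [NormedSpace ℂ W]

/-- The space of compact operators on `W`. -/
noncomputable def cptSpace : Submodule ℂ (W →L[ℂ] W) where
  carrier := {T | IsCpt T}
  add_mem' := IsCpt.add
  zero_mem' := IsCpt.zero
  smul_mem' := fun c _ hT => IsCpt.smul c hT

theorem mul_mem_cptSpace (S T : W →L[ℂ] W) (hS : S ∈ cptSpace W)
    (hT : T ∈ cptSpace W) : S * T ∈ cptSpace W :=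
  IsCpt.mul hS hT

/-- The algebra of compact operators on `W`. -/
noncomputable def cpt : NonUnitalSubalgebra ℂ (W →L[ℂ] W) :=
  (cptSpace W).toNonUnitalSubalgebra (mul_mem_cptSpace W)

theorem compactHUnital_iff : CompactHUnital W ↔ HUnital (cpt W) := Iff.rfl

variable {W}

theorem coe_mul_cpt (a b : cpt W) :
    ((a * b : cpt W) : W →L[ℂ] W) = (a : W →L[ℂ] W).comp (b : W →L[ℂ] W) := rfl

variable {G : ℕ → Type v} [∀ n, NormedAddCommGroup (G n)] [∀ n, NormedSpace ℂ (G n)]

/-- the factorization property of the algebra of compact operators -/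
theorem family [CompleteSpace W] [∀ n, FiniteDimensional ℂ (G n)] (hG : BanachMazurDense G)
    (p : ℝ≥0∞) [Fact (1 ≤ p)] (hW : HasSubspaces W (lp G p)) (m : ℕ) (a : Fin m → cpt W) :
    ∃ (c : cpt W) (a' : Fin m → cpt W), (∀ i, a i = c * a' i) ∧ Rel a a' := by
  have hcompl : ∀ n, CompleteSpace (G n) := fun n => FiniteDimensional.complete ℂ (G n)
  obtain ⟨J, S, hJ, hS, hSJ, hrel⟩ := factor hG p m (fun i => (a i : W →L[ℂ] W))
    (fun i => (a i).2)
  have hcl : IsClosed ((LinearMap.range (emb (W := W)).toLinearMap : Submodule ℂ (Lam W)) :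
      Set (Lam W)) := by
    have := (emb (W := W)).isometry.isClosedEmbedding.isClosed_range
    exact this
  let F : Submodule ℂ (lp G p) :=
    (LinearMap.range (emb (W := W)).toLinearMap).comap (S : lp G p →ₗ[ℂ] Lam W)
  have hF : IsClosed (F : Set (lp G p)) := hcl.preimage S.continuous
  obtain ⟨ι, q, hq⟩ := hW F hF
  -- the compact operator from F to W
  have hSF : ∀ y : F, S (y : lp G p) ∈ LinearMap.range (emb (W := W)).toLinearMap := fun y => y.2
  let S₁ : F →L[ℂ] LinearMap.range (emb (W := W)).toLinearMap :=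
    (S.comp F.subtypeL).codRestrict _ hSF
  have hS₁ : IsCompactOperator S₁ :=
    (hS.comp_clm F.subtypeL).codRestrict hSF hcl
  let e : W ≃ₗᵢ[ℂ] LinearMap.range (emb (W := W)).toLinearMap := (emb (W := W)).equivRange
  let e' : LinearMap.range (emb (W := W)).toLinearMap →L[ℂ] W :=
    e.symm.toContinuousLinearEquiv.toContinuousLinearMap
  let c₀ : F →L[ℂ] W := e'.comp S₁
  have hc₀ : IsCompactOperator c₀ := hS₁.clm_comp e'
  -- the operators into F
  have hJF : ∀ i w, J i w ∈ F := by
    intro i w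
    show S (J i w) ∈ LinearMap.range (emb (W := W)).toLinearMap
    rw [hSJ]
    exact ⟨_, rfl⟩
  let J' : ∀ i, W →L[ℂ] F := fun i => (J i).codRestrict F (hJF i)
  have hJ' : ∀ i, IsCompactOperator (J' i) := fun i => (hJ i).codRestrict (hJF i) hF
  have hcJ : ∀ i w, c₀ (J' i w) = (a i : W →L[ℂ] W) w := by
    intro i w
    have h1 : S₁ (J' i w) = e ((a i : W →L[ℂ] W) w) := Subtype.ext (hSJ i w)
    show e.symm (S₁ (J' i w)) = _
    rw [h1, LinearIsometryEquiv.symm_apply_apply]
  refine ⟨⟨c₀.comp q, hc₀.comp_clm q⟩, fun i => ⟨ι.comp (J' i), (hJ' i).clm_comp ι⟩,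
    fun i => Subtype.ext ?_, fun k κ h => Subtype.ext ?_⟩
  · rw [coe_mul_cpt]
    ext w
    show _ = c₀ (q (ι (J' i w)))
    rw [hq, hcJ]
  · have h' : ∑ i, ((a i : W →L[ℂ] W).comp (k i : W →L[ℂ] W) + κ i • (a i : W →L[ℂ] W)) = 0 := by
      have := congrArg (Subtype.val) h
      simpa [coe_mul_cpt] using this
    have key : ∀ w, ∑ i, ((J i) ((k i : W →L[ℂ] W) w) + κ i • J i w) = 0 := by
      intro w
      have h1 := hrel (fun i => (k i : W →L[ℂ] W) w + κ i • w) (by
        have := congrArg (fun T : W →L[ℂ] W => T w) h'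
        simpa using this)
      simpa using h1
    have key2 : ∀ w, ∑ i, ((J' i) ((k i : W →L[ℂ] W) w) + κ i • J' i w) = 0 := by
      intro w
      apply Subtype.ext
      have := key w
      simpa [J'] using this
    have : ∑ i, ((ι.comp (J' i)).comp (k i : W →L[ℂ] W) + κ i • ι.comp (J' i)) = 0 := by
      ext w
      have h2 := congrArg ι (key2 w)
      simpa [map_sum] using h2
    simpa [coe_mul_cpt] using this

theorem compactHUnital_of [CompleteSpace W] [∀ n, FiniteDimensional ℂ (G n)]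
    (hG : BanachMazurDense G) (p : ℝ≥0∞) [Fact (1 ≤ p)] (hW : HasSubspaces W (lp G p)) :
    CompactHUnital W :=
  (compactHUnital_iff W).2 (hunital_of_family (family hG p hW))

theorem hasSubspaces_prod (E : Type u) [NormedAddCommGroup E] [NormedSpace ℂ E]
    (C : Type v) [NormedAddCommGroup C] [NormedSpace ℂ C] (p : ℝ≥0∞) [Fact (1 ≤ p)] :
    HasSubspaces (E × AllSub C p) C := by
  classical
  intro F hF
  let f : ClosedSub C := ⟨F, hF⟩
  refine ⟨(ContinuousLinearMap.inr ℂ E (AllSub C p)).comp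
    (lp.singleContinuousLinearMap ℂ (SubSpace C) p f),
    (lp.evalCLM ℂ (SubSpace C) p f).comp (ContinuousLinearMap.snd ℂ E (AllSub C p)), ?_⟩
  intro x
  exact lp.single_apply_self (E := SubSpace C) p f x

end Main

end Pool.Agent.BarCx
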