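import Mathlib

open scoped TensorProduct ENNReal

namespace Pool.Agent.BarCx

universe u v

section Bar

variable (A : Type u) [NonUnitalRing A] [Module ℂ A] [IsScalarTower ℂ A A] [SMulCommClass ℂ A A]

/-- `TP A n` is the algebraic tensor power `A ⊗ A ⊗ ⋯ ⊗ A` over `ℂ` with `n + 1` factors,
written as `A ⊗ (A ⊗ (⋯ ⊗ A))`. -/
noncomputable def TP : ℕ → ModuleCat.{u} ℂ
  | 0 => ModuleCat.of ℂ A
  | n + 1 => ModuleCat.of ℂ (A ⊗[ℂ] TP n)

/-- Left multiplication on the first factor: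
`act a (a₀ ⊗ a₁ ⊗ ⋯ ⊗ aₙ) = (a * a₀) ⊗ a₁ ⊗ ⋯ ⊗ aₙ`. -/
noncomputable def act : (n : ℕ) → A →ₗ[ℂ] TP A n →ₗ[ℂ] TP A n
  | 0 => LinearMap.mul ℂ A
  | n + 1 => (LinearMap.rTensorHom (TP A n)) ∘ₗ LinearMap.mul ℂ A

/-- Multiplying the first two factors: `a ⊗ x ↦ act a x`. -/
noncomputable def front (n : ℕ) : TP A (n + 1) →ₗ[ℂ] TP A n :=
  TensorProduct.lift (act A n)

variable {A} in
/-- `a ⊗ x ↦ a ⊗ f x`. -/
noncomputable def back {n m : ℕ} (f : TP A n →ₗ[ℂ] TP A m) : TP A (n + 1) →ₗ[ℂ] TP A (m + 1) :=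
  LinearMap.lTensor A f

/-- The recursion step for `bar`: `a ⊗ x ↦ act a x - a ⊗ f x`. -/
noncomputable def barStep (n : ℕ) (f : TP A (n + 1) →ₗ[ℂ] TP A n) :
    TP A (n + 2) →ₗ[ℂ] TP A (n + 1) :=
  front A (n + 1) - back f

/-- The differential `b'` of the bar complex, from `n + 2` tensor factors to `n + 1` factors:
`b' (a₀ ⊗ a₁) = a₀ * a₁` and, for `x` with at least two factors,
`b' (a₀ ⊗ x) = act a₀ x - a₀ ⊗ b' x`; so `b' (a₀ ⊗ ⋯ ⊗ aₙ)` is the sum over `i < n` of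
`(-1) ^ i • (a₀ ⊗ ⋯ ⊗ a_i a_{i+1} ⊗ ⋯ ⊗ aₙ)`. -/
noncomputable def bar : (n : ℕ) → TP A (n + 1) →ₗ[ℂ] TP A n
  | 0 => front A 0
  | n + 1 => barStep A n (bar n)

/-- The bar complex of `A` is exact at the `(n + 2)`-fold tensor power: the kernel of `b'` there is
contained in the image of `b'`. -/
def ExactAt (n : ℕ) : Prop :=
  ∀ x : TP A (n + 1), bar A n x = 0 → ∃ y : TP A (n + 2), bar A (n + 1) y = x

/-- `A` is H-unital: its bar complex `⋯ → A ⊗ A ⊗ A → A ⊗ A → A → 0` is exact in every degree. -/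
def HUnital : Prop :=
  Function.Surjective (bar A 0) ∧ ∀ n : ℕ, ExactAt A n

end Bar

end Pool.Agent.BarCx
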