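import Pool.Agent.BarCx.Alg
import Pool.Agent.BarCx.Block

open scoped ENNReal

namespace Pool.Agent.BarCx

universe u v

variable {W : Type u} [NormedAddCommGroup W] [NormedSpace ℂ W]
variable {G : ℕ → Type v} [∀ n, NormedAddCommGroup (G n)] [∀ n, NormedSpace ℂ (G n)]

theorem coe_mul_approx (a b : approx W) :
    ((a * b : approx W) : W →L[ℂ] W) = (a : W →L[ℂ] W).comp (b : W →L[ℂ] W) := rfl

/-- The multiplier of `F(W)` given by a bounded operator. -/
noncomputable def multOf (β : W →L[ℂ] W) : Mult (approx W) where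
  l := { toFun := fun a => ⟨β.comp a, comp_mem_approx_left β a.2⟩
         map_add' := fun a b => Subtype.ext (by simp)
         map_smul' := fun c a => Subtype.ext (by simp) }
  r := { toFun := fun a => ⟨(a : W →L[ℂ] W).comp β, comp_mem_approx_right a.2 β⟩
         map_add' := fun a b => Subtype.ext (by simp)
         map_smul' := fun c a => Subtype.ext (by simp) }
  hl := fun a b => Subtype.ext rfl
  hr := fun a b => Subtype.ext rfl
  hlr := fun a b => Subtype.ext rfl

theorem multOf_l (β : W →L[ℂ] W) (a : approx W) :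
    (((multOf β).l a : approx W) : W →L[ℂ] W) = β.comp (a : W →L[ℂ] W) := rfl

theorem multOf_r (β : W →L[ℂ] W) (a : approx W) :
    (((multOf β).r a : approx W) : W →L[ℂ] W) = (a : W →L[ℂ] W).comp β := rfl

/-- Summability of `τ k ∘ f k`. -/
theorem summable_tau [CompleteSpace W] {X : ℕ → Submodule ℂ W} {τ f : ℕ → W →L[ℂ] W}
    (hτ : ∀ k, ∀ x ∈ X k, ‖τ k x‖ ≤ 2 * 2 ^ k * ‖x‖) (hf : ∀ k w, f k w ∈ X k) (C : ℝ)
    (hC : ∀ k, ‖f k‖ ≤ C * (1 / 8 : ℝ) ^ k) : Summable (fun k => (τ k).comp (f k)) := by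
  have hC0 : 0 ≤ C := by
    have := (norm_nonneg _).trans (hC 0)
    simpa using this
  refine Summable.of_norm_bounded (g := fun k => (2 * C) * (1 / 4 : ℝ) ^ k)
    ((summable_geometric_of_lt_one (by norm_num) (by norm_num)).mul_left _) fun k => ?_
  refine ContinuousLinearMap.opNorm_le_bound _ (by positivity) fun w => ?_
  have h1 := hτ k (f k w) (hf k w)
  have h2 := (f k).le_of_opNorm_le (hC k) w
  have h3 : (1 / 4 : ℝ) ^ k = 2 ^ k * (1 / 8 : ℝ) ^ k := by rw [← mul_pow]; norm_num
  calc ‖((τ k).comp (f k)) w‖ ≤ 2 * 2 ^ k * ‖f k w‖ := h1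
    _ ≤ 2 * 2 ^ k * (C * (1 / 8 : ℝ) ^ k * ‖w‖) := by gcongr
    _ = 2 * C * (1 / 4 : ℝ) ^ k * ‖w‖ := by rw [h3]; ring

theorem P1_of_frame [CompleteSpace W] [∀ n, FiniteDimensional ℂ (G n)] (F : Frame W G)
    (hG : BanachMazurDense G) (m : ℕ) (a : Fin m → approx W) :
    ∃ (c : approx W) (a' : Fin m → approx W), ∀ i, a i = c * a' i := by
  choose s hs1 hs2 using fun i => approx_seq (a i).2
  have hinc : ∀ i k, incr (s i) k ∈ finRank W := by
    intro i k
    cases k with
    | zero => exact hs1 i 0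
    | succ k => exact sub_mem (hs1 i (k + 1)) (hs1 i k)
  let R : ℕ → Submodule ℂ W := fun k => ⨆ i : Fin m, LinearMap.range (incr (s i) k : W →ₗ[ℂ] W)
  have hR : ∀ k, FiniteDimensional ℂ (R k) := by
    intro k
    have : ∀ i, FiniteDimensional ℂ (LinearMap.range (incr (s i) k : W →ₗ[ℂ] W)) :=
      fun i => hinc i k
    exact inferInstance
  let X : ℕ → Submodule ℂ W := fun k => ⨆ l : Fin (k + 1), R l
  have hX : ∀ k, FiniteDimensional ℂ (X k) := by
    intro k
    exact inferInstance
  have hRX : ∀ k, R k ≤ X k := fun k => le_iSup (fun l : Fin (k + 1) => R l) (Fin.last k)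
  have hmono : Monotone X := by
    intro k l hkl
    refine iSup_le fun j => ?_
    exact le_iSup (fun l : Fin (l + 1) => R l) ⟨j, by omega⟩
  obtain ⟨S, L, τ, hS1, -, h1, h2, h3, -⟩ := block F hG X hX hmono
  have hmem : ∀ i k w, incr (s i) k w ∈ X k := fun i k w =>
    hRX k (le_iSup (fun i : Fin m => LinearMap.range (incr (s i) k : W →ₗ[ℂ] W)) i ⟨w, rfl⟩)
  have hsum : ∀ i, Summable (fun k => (τ k).comp (incr (s i) k)) := fun i =>
    summable_tau h1 (hmem i) (‖(a i : W →L[ℂ] W)‖ + 9) (norm_incr_le (hs2 i))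
  refine ⟨⟨S, hS1⟩, fun i => ⟨∑' k, (τ k).comp (incr (s i) k), ?_⟩, fun i => Subtype.ext ?_⟩
  · exact mem_approx_of_hasSum
      (fun k => mem_approx_of_finRank (comp_mem_finRank_left _ (hinc i k))) (hsum i).hasSum
  · rw [coe_mul_approx]
    have e1 : HasSum (fun k => S.comp ((τ k).comp (incr (s i) k)))
        (S.comp (∑' k, (τ k).comp (incr (s i) k))) :=
      (hsum i).hasSum.mapL (ContinuousLinearMap.compL ℂ W W W S)
    have e2 : (fun k => S.comp ((τ k).comp (incr (s i) k))) = incr (s i) := by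
      funext k
      ext w
      exact h3 k _ (hmem i k w)
    rw [e2] at e1
    exact (hasSum_incr (hs2 i)).unique e1

theorem P2_of_frame [CompleteSpace W] [∀ n, FiniteDimensional ℂ (G n)] (F : Frame W G)
    (hG : BanachMazurDense G) (m : ℕ) (c : approx W) (z : Fin m → approx W)
    (hcz : ∀ i, c * z i = 0) :
    ∃ (S J : approx W) (L : Mult (approx W)) (t : Fin m → approx W), c = S * J ∧
      (∀ i, J * z i = t i - L.l (t i)) ∧ L.r S = S ∧ Rel z t := by
  obtain ⟨s, hs1, hs2⟩ := approx_seq c.2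
  have hinc : ∀ k, incr s k ∈ finRank W := by
    intro k
    cases k with
    | zero => exact hs1 0
    | succ k => exact sub_mem (hs1 (k + 1)) (hs1 k)
  let R : ℕ → Submodule ℂ W := fun k => LinearMap.range (s k : W →ₗ[ℂ] W)
  have hR : ∀ k, FiniteDimensional ℂ (R k) := fun k => hs1 k
  let X : ℕ → Submodule ℂ W := fun k => ⨆ l : Fin (k + 1), R l
  have hX : ∀ k, FiniteDimensional ℂ (X k) := by
    intro k
    exact inferInstance
  have hRX : ∀ k, R k ≤ X k := fun k => le_iSup (fun l : Fin (k + 1) => R l) (Fin.last k)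
  have hmono : Monotone X := by
    intro k l hkl
    refine iSup_le fun j => ?_
    exact le_iSup (fun l : Fin (l + 1) => R l) ⟨j, by omega⟩
  obtain ⟨S, L, τ, hS1, hS2, h1, h2, h3, h4⟩ := block F hG X hX hmono
  have hsmem : ∀ k w, s k w ∈ X k := fun k w => hRX k ⟨w, rfl⟩
  have hmem : ∀ k w, incr s k w ∈ X k := by
    intro k w
    cases k with
    | zero => exact hsmem 0 w
    | succ k => exact sub_mem (hsmem (k + 1) w) (hmono (Nat.le_succ k) (hsmem k w))
  have hsumJ : Summable (fun k => (τ k).comp (incr s k)) :=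
    summable_tau h1 hmem (‖(c : W →L[ℂ] W)‖ + 9) (norm_incr_le hs2)
  have hcz' : ∀ i, (c : W →L[ℂ] W).comp (z i : W →L[ℂ] W) = 0 := by
    intro i
    have := congrArg (Subtype.val) (hcz i)
    simpa [coe_mul_approx] using this
  have hbound : ∀ i k, ‖(s k).comp (z i : W →L[ℂ] W)‖ ≤
      ‖(z i : W →L[ℂ] W)‖ * (1 / 8 : ℝ) ^ k := by
    intro i k
    have e1 : (s k).comp (z i : W →L[ℂ] W) = -(((c : W →L[ℂ] W) - s k).comp
        (z i : W →L[ℂ] W)) := by
      rw [ContinuousLinearMap.sub_comp, hcz' i]; simp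
    rw [e1, norm_neg, mul_comm]
    exact (ContinuousLinearMap.opNorm_comp_le _ _).trans
      (mul_le_mul_of_nonneg_right (hs2 k) (norm_nonneg _))
  have hsumT : ∀ i, Summable (fun k => (τ k).comp ((s k).comp (z i : W →L[ℂ] W))) := fun i =>
    summable_tau h1 (fun k w => hsmem k _) _ (hbound i)
  let T : Fin m → W →L[ℂ] W := fun i => ∑' k, (τ k).comp ((s k).comp (z i : W →L[ℂ] W))
  have hT : ∀ i, T i ∈ approx W := fun i => mem_approx_of_hasSum
    (fun k => mem_approx_of_finRank (comp_mem_finRank_left _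
      (comp_mem_finRank_right (hs1 k) _))) (hsumT i).hasSum
  refine ⟨⟨S, hS1⟩, ⟨∑' k, (τ k).comp (incr s k), ?_⟩, multOf L, fun i => ⟨T i, hT i⟩,
    Subtype.ext ?_, fun i => Subtype.ext ?_, Subtype.ext ?_, ?_⟩
  · exact mem_approx_of_hasSum
      (fun k => mem_approx_of_finRank (comp_mem_finRank_left _ (hinc k))) hsumJ.hasSum
  · rw [coe_mul_approx]
    have e1 : HasSum (fun k => S.comp ((τ k).comp (incr s k)))
        (S.comp (∑' k, (τ k).comp (incr s k))) :=
      hsumJ.hasSum.mapL (ContinuousLinearMap.compL ℂ W W W S)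
    have e2 : (fun k => S.comp ((τ k).comp (incr s k))) = incr s := by
      funext k
      ext w
      exact h3 k _ (hmem k w)
    rw [e2] at e1
    exact (hasSum_incr hs2).unique e1
  · show (∑' k, (τ k).comp (incr s k)).comp (z i : W →L[ℂ] W) = T i - L.comp (T i)
    have e1 : HasSum (fun k => ((τ k).comp (incr s k)).comp (z i : W →L[ℂ] W))
        ((∑' k, (τ k).comp (incr s k)).comp (z i : W →L[ℂ] W)) :=
      hsumJ.hasSum.mapL ((ContinuousLinearMap.compL ℂ W W W).flip (z i : W →L[ℂ] W))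
    have e2 : HasSum (fun k => L.comp ((τ k).comp ((s k).comp (z i : W →L[ℂ] W))))
        (L.comp (T i)) :=
      (hsumT i).hasSum.mapL (ContinuousLinearMap.compL ℂ W W W L)
    have e3 : HasSum (fun k => (τ (k + 1)).comp ((s k).comp (z i : W →L[ℂ] W)))
        (L.comp (T i)) := by
      have e6 : (fun k => L.comp ((τ k).comp ((s k).comp (z i : W →L[ℂ] W)))) =
          fun k => (τ (k + 1)).comp ((s k).comp (z i : W →L[ℂ] W)) := by
        funext k
        ext w
        exact h4 k _ (hsmem k _)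
      rwa [e6] at e2
    have e4 := HasSum.zero_add (f := fun k => match k with
      | 0 => (0 : W →L[ℂ] W)
      | k + 1 => (τ (k + 1)).comp ((s k).comp (z i : W →L[ℂ] W))) e3
    simp only [zero_add] at e4
    have e5 := (hsumT i).hasSum.sub e4
    refine e1.unique ?_
    refine e5.congr_fun ?_
    intro k
    cases k with
    | zero => simp [incr, ContinuousLinearMap.comp_assoc]
    | succ k =>
      simp only [incr, ContinuousLinearMap.comp_assoc, ContinuousLinearMap.sub_comp,
        ContinuousLinearMap.comp_sub]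
  · rw [multOf_r]; exact hS2
  · intro k κ h
    have h' : ∑ i, ((z i : W →L[ℂ] W).comp (k i : W →L[ℂ] W) + κ i • (z i : W →L[ℂ] W)) = 0 := by
      have := congrArg (Subtype.val) h
      simpa [coe_mul_approx] using this
    refine Subtype.ext ?_
    have e1 : HasSum (fun l => ∑ i, (((τ l).comp ((s l).comp (z i : W →L[ℂ] W))).comp
        (k i : W →L[ℂ] W) + κ i • (τ l).comp ((s l).comp (z i : W →L[ℂ] W))))
        (∑ i, ((T i).comp (k i : W →L[ℂ] W) + κ i • T i)) := by
      refine hasSum_sum fun i _ => ?_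
      exact ((hsumT i).hasSum.mapL ((ContinuousLinearMap.compL ℂ W W W).flip
        (k i : W →L[ℂ] W))).add ((hsumT i).hasSum.const_smul (κ i))
    have e2 : ∀ l, ∑ i, (((τ l).comp ((s l).comp (z i : W →L[ℂ] W))).comp
        (k i : W →L[ℂ] W) + κ i • (τ l).comp ((s l).comp (z i : W →L[ℂ] W))) = 0 := by
      intro l
      have e3 := congrArg (fun q : W →L[ℂ] W => (τ l).comp ((s l).comp q)) h'
      simp only [ContinuousLinearMap.comp_zero] at e3
      rw [← e3]
      ext w
      simp [map_sum]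
    simp only [e2] at e1
    have e4 := e1.unique hasSum_zero
    simpa [coe_mul_approx] using e4

theorem hunital_of_frame [CompleteSpace W] [∀ n, FiniteDimensional ℂ (G n)] (F : Frame W G)
    (hG : BanachMazurDense G) : HUnital (approx W) :=
  hunital_of (P1_of_frame F hG) (P2_of_frame F hG)

theorem hunital_approx_prod (E : Type u) [NormedAddCommGroup E] [NormedSpace ℂ E]
    [CompleteSpace E] (G : ℕ → Type v) [∀ n, NormedAddCommGroup (G n)]
    [∀ n, NormedSpace ℂ (G n)] [∀ n, FiniteDimensional ℂ (G n)] (hG : BanachMazurDense G)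
    (p : ℝ≥0∞) [Fact (1 ≤ p)] (hp : p ≠ ∞) : ApproxHUnital (E × lp G p) := by
  have : ∀ n, CompleteSpace (G n) := fun n => FiniteDimensional.complete ℂ (G n)
  obtain ⟨F⟩ := exists_frame (G := G) E p hp
  exact (approxHUnital_iff _).2 (hunital_of_frame F hG)

end Pool.Agent.BarCx
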