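import Pool.Agent.BarCx.Defs

open scoped ENNReal

namespace Pool.Agent.BarCx

universe u v

section Ops

variable {W : Type u} [NormedAddCommGroup W] [NormedSpace ℂ W]

/-- The bounded operator `T` has finite rank. -/
def IsFinRank (T : W →L[ℂ] W) : Prop := FiniteDimensional ℂ (LinearMap.range (T : W →ₗ[ℂ] W))

theorem IsFinRank.add {S T : W →L[ℂ] W} (hS : IsFinRank S) (hT : IsFinRank T) :
    IsFinRank (S + T) := by
  have hS' : FiniteDimensional ℂ (LinearMap.range (S : W →ₗ[ℂ] W)) := hS
  have hT' : FiniteDimensional ℂ (LinearMap.range (T : W →ₗ[ℂ] W)) := hT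
  refine Submodule.finiteDimensional_of_le (S₂ := LinearMap.range (S : W →ₗ[ℂ] W) ⊔
    LinearMap.range (T : W →ₗ[ℂ] W)) ?_
  rintro _ ⟨x, rfl⟩
  exact Submodule.add_mem_sup ⟨x, rfl⟩ ⟨x, rfl⟩

theorem IsFinRank.zero : IsFinRank (0 : W →L[ℂ] W) := by
  refine Submodule.finiteDimensional_of_le (S₂ := (⊥ : Submodule ℂ W)) ?_
  rintro _ ⟨x, rfl⟩
  simp

theorem IsFinRank.mul {S T : W →L[ℂ] W} (hS : IsFinRank S) (_ : IsFinRank T) :
    IsFinRank (S * T) := by
  have hS' : FiniteDimensional ℂ (LinearMap.range (S : W →ₗ[ℂ] W)) := hS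
  refine Submodule.finiteDimensional_of_le (S₂ := LinearMap.range (S : W →ₗ[ℂ] W)) ?_
  rintro _ ⟨x, rfl⟩
  exact ⟨T x, rfl⟩

theorem IsFinRank.smul (c : ℂ) {T : W →L[ℂ] W} (hT : IsFinRank T) : IsFinRank (c • T) := by
  have hT' : FiniteDimensional ℂ (LinearMap.range (T : W →ₗ[ℂ] W)) := hT
  refine Submodule.finiteDimensional_of_le (S₂ := LinearMap.range (T : W →ₗ[ℂ] W)) ?_
  rintro _ ⟨x, rfl⟩
  exact ⟨c • x, by simp⟩

variable (W)

/-- The Banach algebra `B(W)` of bounded operators on `W`, with composition and operator norm. -/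
def Op : Type u := W →L[ℂ] W

noncomputable instance opRing : NormedRing (Op W) := ContinuousLinearMap.toNormedRing

noncomputable instance opAlg : NormedAlgebra ℂ (Op W) := ContinuousLinearMap.toNormedAlgebra

instance opTop :
    @IsSemitopologicalSemiring (Op W) _ (@NonUnitalSemiring.toNonUnitalNonAssocSemiring (Op W) _) :=
  inferInstanceAs (@IsSemitopologicalSemiring (W →L[ℂ] W) _ _)

/-- The space of bounded finite-rank operators on `W`. -/
noncomputable def opFinRankSpace : Submodule ℂ (Op W) where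
  carrier := {T | IsFinRank T}
  add_mem' := fun hS hT => IsFinRank.add hS hT
  zero_mem' := IsFinRank.zero
  smul_mem' := fun c _ hT => IsFinRank.smul c hT

theorem mul_mem_opFinRankSpace (S T : Op W) (hS : S ∈ opFinRankSpace W)
    (hT : T ∈ opFinRankSpace W) : S * T ∈ opFinRankSpace W :=
  IsFinRank.mul hS hT

/-- The algebra of bounded finite-rank operators on `W`. -/
noncomputable def opFinRank : NonUnitalSubalgebra ℂ (Op W) :=
  (opFinRankSpace W).toNonUnitalSubalgebra (mul_mem_opFinRankSpace W)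

/-- The algebra `F(W)` of approximable operators on `W`: the closure, in operator norm, of the
bounded finite-rank operators. -/
noncomputable def opApprox : NonUnitalSubalgebra ℂ (Op W) := (opFinRank W).topologicalClosure

/-- The algebra `F(W)` as a type. -/
def FW : Type u := opApprox W

noncomputable instance fwRing : NonUnitalRing (FW W) := (opApprox W).toNonUnitalRing

noncomputable instance fwMod : Module ℂ (FW W) := NonUnitalSubalgebra.instModule

instance fwTower : IsScalarTower ℂ (FW W) (FW W) :=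
  NonUnitalSubalgebra.instIsScalarTowerSubtypeMem

instance fwComm : SMulCommClass ℂ (FW W) (FW W) :=
  NonUnitalSubalgebra.instSMulCommClass

/-- The algebra `F(W)` of approximable operators on `W` is H-unital. -/
def ApproxHUnital : Prop := HUnital (FW W)

end Ops

/-- `a ≤ b ≤ (1 + ε) * a`. -/
def Within (ε a b : ℝ) : Prop := a ≤ b ∧ b ≤ (1 + ε) * a

/-- `V` is `(1 + ε)`-isometric to `ℂ ^ (d + 1)` with the (semi)norm `N`: there is a linear
isomorphism `e` of `ℂ ^ (d + 1)` onto `V` with `N x ≤ ‖e x‖ ≤ (1 + ε) * N x` for all `x`. -/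
def NearlyIsometric {d : ℕ} (N : Seminorm ℂ (Fin (d + 1) → ℂ)) (ε : ℝ) (V : Type v)
    [NormedAddCommGroup V] [NormedSpace ℂ V] : Prop :=
  ∃ e : (Fin (d + 1) → ℂ) ≃ₗ[ℂ] V, ∀ x, Within ε (N x) ‖e x‖

/-- The sequence `G` of finite-dimensional normed spaces is dense for the Banach-Mazur distance in
the class of all (nonzero) finite-dimensional normed spaces: for every norm `N` on `ℂ ^ (d + 1)`
and every `ε > 0` some `G n` is `(1 + ε)`-isometric to `ℂ ^ (d + 1)` with the norm `N`. -/
def BanachMazurDense (G : ℕ → Type v) [∀ n, NormedAddCommGroup (G n)]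
    [∀ n, NormedSpace ℂ (G n)] : Prop :=
  ∀ (d : ℕ) (N : Seminorm ℂ (Fin (d + 1) → ℂ)), (∀ x, N x = 0 → x = 0) → ∀ ε : ℝ, 0 < ε →
    ∃ n : ℕ, NearlyIsometric N ε (G n)

end Pool.Agent.BarCx
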