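import Pool.Agent.BarCx.CptMain
import Pool.Agent.BarCx.Main

open scoped TensorProduct ENNReal

set_option linter.unusedSectionVars false

namespace Pool.Agent.BarCx

universe u v

section Map

variable {A : Type u} [NonUnitalRing A] [Module ℂ A] [IsScalarTower ℂ A A] [SMulCommClass ℂ A A]
variable {B : Type v} [NonUnitalRing B] [Module ℂ B] [IsScalarTower ℂ B B] [SMulCommClass ℂ B B]

/-- a linear map on the tensor powers -/
noncomputable def mapTP (f : A →ₗ[ℂ] B) : (n : ℕ) → TP A n →ₗ[ℂ] TP B n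
  | 0 => f
  | n + 1 => TensorProduct.map f (mapTP f n)

theorem mapTP_tm (f : A →ₗ[ℂ] B) (n : ℕ) (a : A) (x : TP A n) :
    mapTP f (n + 1) (tm n a x) = tm n (f a) (mapTP f n x) := rfl

theorem mapTP_act (f : A →ₗ[ℂ] B) (hf : ∀ a b, f (a * b) = f a * f b) (n : ℕ) (a : A)
    (x : TP A n) : mapTP f n (act A n a x) = act B n (f a) (mapTP f n x) := by
  cases n with
  | zero => exact hf a x
  | succ n =>
    have : mapTP f (n + 1) ∘ₗ act A (n + 1) a = act B (n + 1) (f a) ∘ₗ mapTP f (n + 1) := by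
      refine tp_ext fun b y => ?_
      simp only [LinearMap.comp_apply, act_tm, mapTP_tm, hf]
    exact congrArg (fun g => g x) this

theorem mapTP_bar (f : A →ₗ[ℂ] B) (hf : ∀ a b, f (a * b) = f a * f b) (n : ℕ)
    (x : TP A (n + 1)) : bar B n (mapTP f (n + 1) x) = mapTP f n (bar A n x) := by
  have : bar B n ∘ₗ mapTP f (n + 1) = mapTP f n ∘ₗ bar A n := by
    induction n with
    | zero =>
      refine tp_ext fun a y => ?_
      simp only [LinearMap.comp_apply, mapTP_tm, bar_tm_zero]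
      exact (mapTP_act f hf 0 a y).symm
    | succ n ih =>
      refine tp_ext fun a y => ?_
      have h2 : bar B n (mapTP f (n + 1) y) = mapTP f n (bar A n y) :=
        congrArg (fun g => g y) (ih y)
      simp only [LinearMap.comp_apply, mapTP_tm, bar_tm_succ, map_sub, h2]
      rw [mapTP_act f hf (n + 1) a y]
  exact congrArg (fun g => g x) this

theorem mapTP_comp (f : A →ₗ[ℂ] B) (g : B →ₗ[ℂ] A) (h : ∀ b, f (g b) = b) (n : ℕ)
    (x : TP B n) : mapTP f n (mapTP g n x) = x := by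
  induction n with
  | zero => exact h x
  | succ n ih =>
    have : mapTP f (n + 1) ∘ₗ mapTP g (n + 1) = LinearMap.id := by
      refine tp_ext fun b y => ?_
      simp only [LinearMap.comp_apply, mapTP_tm, h, ih, LinearMap.id_apply]
    exact congrArg (fun g => g x) this

/-- H-unitality is invariant under isomorphisms. -/
theorem HUnital.transfer (hA : HUnital A) (f : A →ₗ[ℂ] B) (hf : ∀ a b, f (a * b) = f a * f b)
    (g : B →ₗ[ℂ] A) (hg : ∀ a b, g (a * b) = g a * g b) (hfg : ∀ b, f (g b) = b) :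
    HUnital B := by
  refine ⟨fun b => ?_, fun n x hx => ?_⟩
  · obtain ⟨y, hy⟩ := hA.1 (g b)
    refine ⟨mapTP f 1 y, ?_⟩
    rw [mapTP_bar f hf 0 y, hy]
    exact hfg b
  · obtain ⟨y, hy⟩ := hA.2 n (mapTP g (n + 1) x) (by rw [mapTP_bar g hg, hx, map_zero])
    refine ⟨mapTP f (n + 2) y, ?_⟩
    rw [mapTP_bar f hf (n + 1) y, hy, mapTP_comp f g hfg]

end Map

section Approx

variable {V : Type u} [NormedAddCommGroup V] [NormedSpace ℂ V]
variable {W : Type v} [NormedAddCommGroup W] [NormedSpace ℂ W]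

theorem conj_finRank (φ : V ≃L[ℂ] W) {T : V →L[ℂ] V} (hT : T ∈ finRank V) :
    (φ : V →L[ℂ] W).comp (T.comp (φ.symm : W →L[ℂ] V)) ∈ finRank W := by
  have hT' : FiniteDimensional ℂ (LinearMap.range (T : V →ₗ[ℂ] V)) := hT
  have : FiniteDimensional ℂ ((LinearMap.range (T : V →ₗ[ℂ] V)).map
      ((φ : V →L[ℂ] W) : V →ₗ[ℂ] W)) := inferInstance
  refine Submodule.finiteDimensional_of_le (S₂ :=
    (LinearMap.range (T : V →ₗ[ℂ] V)).map ((φ : V →L[ℂ] W) : V →ₗ[ℂ] W)) ?_
  rintro _ ⟨x, rfl⟩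
  exact ⟨T (φ.symm x), ⟨φ.symm x, rfl⟩, rfl⟩

theorem conj_approx (φ : V ≃L[ℂ] W) {T : V →L[ℂ] V} (hT : T ∈ approx V) :
    (φ : V →L[ℂ] W).comp (T.comp (φ.symm : W →L[ℂ] V)) ∈ approx W := by
  have hcont : Continuous (fun T : V →L[ℂ] V =>
      (φ : V →L[ℂ] W).comp (T.comp (φ.symm : W →L[ℂ] V))) :=
    (ContinuousLinearMap.compL ℂ W V W (φ : V →L[ℂ] W)).continuous.comp
      ((ContinuousLinearMap.compL ℂ W V V).flip (φ.symm : W →L[ℂ] V)).continuous
  exact map_mem_closure (f := fun T : V →L[ℂ] V =>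
      (φ : V →L[ℂ] W).comp (T.comp (φ.symm : W →L[ℂ] V))) hcont hT
    (fun T hT => conj_finRank φ hT)

/-- conjugation with an isomorphism -/
noncomputable def conjMap (φ : V ≃L[ℂ] W) : approx V →ₗ[ℂ] approx W where
  toFun T := ⟨(φ : V →L[ℂ] W).comp ((T : V →L[ℂ] V).comp (φ.symm : W →L[ℂ] V)),
    conj_approx φ T.2⟩
  map_add' S T := Subtype.ext (by ext w; simp)
  map_smul' c T := Subtype.ext (by ext w; simp)

theorem conjMap_mul (φ : V ≃L[ℂ] W) (S T : approx V) :
    conjMap φ (S * T) = conjMap φ S * conjMap φ T := by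
  refine Subtype.ext ?_
  rw [coe_mul_approx]
  ext w
  show φ ((S : V →L[ℂ] V) ((T : V →L[ℂ] V) (φ.symm w))) =
    φ ((S : V →L[ℂ] V) (φ.symm (φ ((T : V →L[ℂ] V) (φ.symm w)))))
  rw [ContinuousLinearEquiv.symm_apply_apply]

theorem conjMap_symm (φ : V ≃L[ℂ] W) (T : approx W) : conjMap φ (conjMap φ.symm T) = T := by
  refine Subtype.ext ?_
  ext w
  show φ (φ.symm ((T : W →L[ℂ] W) (φ (φ.symm w)))) = _
  rw [ContinuousLinearEquiv.apply_symm_apply, ContinuousLinearEquiv.apply_symm_apply]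

theorem approxHUnital_congr (φ : V ≃L[ℂ] W) (h : ApproxHUnital V) : ApproxHUnital W := by
  rw [approxHUnital_iff] at h ⊢
  exact h.transfer (conjMap φ) (conjMap_mul φ) (conjMap φ.symm) (conjMap_mul φ.symm)
    (conjMap_symm φ)

end Approx

section Both

variable {W : Type u} [NormedAddCommGroup W] [NormedSpace ℂ W]
variable {C : Type v} [NormedAddCommGroup C] [NormedSpace ℂ C]

/-- splitting off a complemented subspace -/
noncomputable def splitOff (i : C →L[ℂ] W) (q : W →L[ℂ] C) (h : ∀ x, q (i x) = x) :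
    (LinearMap.ker (q : W →ₗ[ℂ] C) × C) ≃L[ℂ] W :=
  ContinuousLinearEquiv.equivOfInverse
    ((LinearMap.ker (q : W →ₗ[ℂ] C)).subtypeL.coprod i)
    (((ContinuousLinearMap.id ℂ W - i.comp q).codRestrict (LinearMap.ker (q : W →ₗ[ℂ] C))
      (fun w => by simp [h])).prod q)
    (fun x => by
      have h1 : q (x.1 : W) = 0 := x.1.2
      refine Prod.ext (Subtype.ext ?_) ?_
      · simp [h, h1]
      · simp [h, h1])
    (fun w => by simp)

theorem both_of [CompleteSpace W] {G : ℕ → Type v} [∀ n, NormedAddCommGroup (G n)]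
    [∀ n, NormedSpace ℂ (G n)] [∀ n, FiniteDimensional ℂ (G n)] (hG : BanachMazurDense G)
    (p : ℝ≥0∞) [Fact (1 ≤ p)] (hp : p ≠ ∞) (hW : HasSubspaces W (lp G p)) :
    CompactHUnital W ∧ ApproxHUnital W := by
  refine ⟨compactHUnital_of hG p hW, ?_⟩
  have hcompl : ∀ n, CompleteSpace (G n) := fun n => FiniteDimensional.complete ℂ (G n)
  obtain ⟨i₀, q₀, h₀⟩ := hW ⊤ isClosed_univ
  let t : (⊤ : Submodule ℂ (lp G p)) ≃L[ℂ] lp G p :=
    ContinuousLinearEquiv.equivOfInverse (Submodule.subtypeL _)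
      ((ContinuousLinearMap.id ℂ (lp G p)).codRestrict ⊤ (fun _ => trivial))
      (fun _ => rfl) (fun _ => rfl)
  let i : lp G p →L[ℂ] W := i₀.comp (t.symm : lp G p →L[ℂ] _)
  let q : W →L[ℂ] lp G p := (t : _ →L[ℂ] lp G p).comp q₀
  have h : ∀ x, q (i x) = x := by
    intro x
    show t (q₀ (i₀ (t.symm x))) = x
    rw [h₀, ContinuousLinearEquiv.apply_symm_apply]
  have hker : IsClosed (LinearMap.ker (q : W →ₗ[ℂ] lp G p) : Set W) := q.isClosed_ker
  have : CompleteSpace (LinearMap.ker (q : W →ₗ[ℂ] lp G p)) := hker.completeSpace_coe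
  exact approxHUnital_congr (splitOff i q h)
    (hunital_approx_prod (LinearMap.ker (q : W →ₗ[ℂ] lp G p)) G hG p hp)

end Both

end Pool.Agent.BarCx
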